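import Pool.Agent.helper14.NR.E5d.PN2

/-!
Generated: certificates.
-/

namespace Pool.Agent.helper14.NR.E5d

open Pool.Agent.helper31.IA (Z)
open Pool.Agent.helper31.IX (Op XOps runX Cov CovD cov_split covD_split)
open Pool.Agent.helper31.IC (TD)
open Pool.Agent.helper63.RG (reloc)
open Pool.Agent.helper63.NF hiding TD
open Pool.Agent.helper14.CF (xE covD_E)
open Pool.Agent.helper14.NR (share)

mutual
theorem A2_c0_t5 : CovD 1 gA2 [(183824809984, 12026118144), (68719476736, 68719476736), (2748779069440, 2748779069440)] :=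
  covD_E kA2_eq (.n 2 (.n 2 (.n 2 (.n 2 (.l 0) (.l 0)) (.n 2 (.l 0) (.n 0 (.l 0) (.l 0)))) (.n 2 (.n 2 (.l 0) (.l 0)) (.n 0 (.l 0) (.l 0)))) (.n 2 (.n 2 (.n 0 (.l 0) (.l 0)) (.l 0)) (.n 2 (.l 0) (.l 0))))
    [(183824809984, 12026118144), (68719476736, 68719476736), (2748779069440, 2748779069440)] rfl (by decide +kernel)
theorem A2_c0_t6 : CovD 1 gA2 [(183824809984, 12026118144), (206158430208, 68719476736), (2748779069440, 2748779069440)] :=
  covD_E kA2_eq (.n 2 (.n 2 (.n 2 (.n 2 (.l 0) (.l 0)) (.n 2 (.l 0) (.l 0))) (.n 2 (.n 2 (.l 0) (.l 0)) (.n 0 (.l 0) (.l 0)))) (.n 2 (.n 2 (.l 0) (.l 0)) (.n 0 (.l 0) (.l 0))))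
    [(183824809984, 12026118144), (206158430208, 68719476736), (2748779069440, 2748779069440)] rfl (by decide +kernel)
end

mutual
theorem A2_c0_t7 : CovD 1 gA2 [(183824809984, 12026118144), (137438953472, 137438953472), (8246337208320, 2748779069440)] :=
  covD_E kA2_eq (.n 2 (.n 1 (.n 2 (.n 0 (.l 0) (.l 0)) (.l 0)) (.n 2 (.n 0 (.l 0) (.l 0)) (.l 0))) (.n 2 (.n 0 (.l 1) (.l 1)) (.l 1)))
    [(183824809984, 12026118144), (137438953472, 137438953472), (8246337208320, 2748779069440)] rfl (by decide +kernel)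
theorem A2_c0_t10 : CovD 1 gA2 [(183824809984, 12026118144), (343597383680, 68719476736), (2748779069440, 2748779069440)] :=
  covD_E kA2_eq (.n 2 (.n 2 (.n 0 (.n 2 (.l 0) (.l 0)) (.n 2 (.l 0) (.l 0))) (.n 2 (.n 0 (.l 0) (.l 0)) (.l 0))) (.n 2 (.n 2 (.l 0) (.l 0)) (.n 0 (.l 0) (.l 0))))
    [(183824809984, 12026118144), (343597383680, 68719476736), (2748779069440, 2748779069440)] rfl (by decide +kernel)
end

mutual
theorem A2_c0_t11 : CovD 1 gA2 [(183824809984, 12026118144), (481036337152, 68719476736), (2748779069440, 2748779069440)] :=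
  covD_E kA2_eq (.n 2 (.n 2 (.n 0 (.n 2 (.l 0) (.l 0)) (.n 2 (.l 0) (.l 0))) (.n 2 (.n 0 (.l 0) (.l 0)) (.l 0))) (.n 2 (.n 2 (.l 0) (.l 0)) (.n 0 (.l 0) (.l 0))))
    [(183824809984, 12026118144), (481036337152, 68719476736), (2748779069440, 2748779069440)] rfl (by decide +kernel)
theorem A2_c0_t12 : CovD 1 gA2 [(183824809984, 12026118144), (412316860416, 137438953472), (8246337208320, 2748779069440)] :=
  covD_E kA2_eq (.n 2 (.n 1 (.n 2 (.l 0) (.l 0)) (.n 2 (.l 0) (.l 0))) (.n 2 (.l 1) (.l 1)))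
    [(183824809984, 12026118144), (412316860416, 137438953472), (8246337208320, 2748779069440)] rfl (by decide +kernel)
end

mutual
theorem A2_c0_t15 : CovD 1 gA2 [(183824809984, 12026118144), (687194767360, 137438953472), (2748779069440, 2748779069440)] :=
  covD_E kA2_eq (.n 1 (.n 2 (.n 2 (.n 2 (.l 0) (.l 0)) (.n 2 (.l 0) (.l 0))) (.n 0 (.n 2 (.l 0) (.l 0)) (.n 2 (.l 0) (.l 0)))) (.n 2 (.n 2 (.n 2 (.l 0) (.l 0)) (.n 2 (.l 0) (.l 0))) (.n 0 (.n 2 (.l 0) (.l 0)) (.n 2 (.l 0) (.l 0)))))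
    [(183824809984, 12026118144), (687194767360, 137438953472), (2748779069440, 2748779069440)] rfl (by decide +kernel)
theorem A2_c0_t16 : CovD 1 gA2 [(183824809984, 12026118144), (687194767360, 137438953472), (8246337208320, 2748779069440)] :=
  covD_E kA2_eq (.n 2 (.n 1 (.n 2 (.l 0) (.l 0)) (.n 2 (.l 0) (.l 0))) (.n 2 (.n 0 (.l 0) (.l 0)) (.l 1)))
    [(183824809984, 12026118144), (687194767360, 137438953472), (8246337208320, 2748779069440)] rfl (by decide +kernel)
end

mutual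
theorem A2_c0_t18 : CovD 1 gA2 [(177811750912, 6013059072), (962072674304, 137438953472), (5497558138880, 5497558138880)] :=
  covD_E kA2_eq (.n 2 (.n 2 (.n 2 (.n 2 (.l 0) (.l 0)) (.n 2 (.l 0) (.l 0))) (.n 1 (.n 2 (.l 0) (.l 0)) (.n 2 (.l 0) (.l 0)))) (.n 2 (.n 2 (.n 0 (.l 0) (.l 0)) (.l 0)) (.n 1 (.l 0) (.l 0))))
    [(177811750912, 6013059072), (962072674304, 137438953472), (5497558138880, 5497558138880)] rfl (by decide +kernel)
theorem A2_c0_t19 : CovD 1 gA2 [(189837869056, 6013059072), (962072674304, 137438953472), (5497558138880, 5497558138880)] :=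
  covD_E kA2_eq (.n 2 (.n 2 (.n 2 (.n 2 (.l 0) (.l 0)) (.n 2 (.l 0) (.l 0))) (.n 1 (.n 2 (.l 0) (.l 0)) (.n 2 (.l 0) (.l 0)))) (.n 2 (.n 2 (.n 0 (.l 0) (.l 0)) (.l 0)) (.n 1 (.l 0) (.l 0))))
    [(189837869056, 6013059072), (962072674304, 137438953472), (5497558138880, 5497558138880)] rfl (by decide +kernel)
end

mutual
theorem A2_c0_t24 : CovD 1 gA2 [(207877046272, 12026118144), (68719476736, 68719476736), (2748779069440, 2748779069440)] :=
  covD_E kA2_eq (.n 2 (.n 2 (.n 2 (.n 2 (.l 0) (.l 0)) (.n 2 (.l 0) (.l 0))) (.n 2 (.n 2 (.l 0) (.l 0)) (.n 0 (.l 0) (.l 0)))) (.n 2 (.n 2 (.n 0 (.l 0) (.l 0)) (.l 0)) (.n 0 (.l 0) (.l 0))))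
    [(207877046272, 12026118144), (68719476736, 68719476736), (2748779069440, 2748779069440)] rfl (by decide +kernel)
theorem A2_c0_t25 : CovD 1 gA2 [(207877046272, 12026118144), (206158430208, 68719476736), (2748779069440, 2748779069440)] :=
  covD_E kA2_eq (.n 2 (.n 2 (.n 2 (.n 2 (.l 0) (.l 0)) (.n 2 (.l 0) (.l 0))) (.n 0 (.n 2 (.l 0) (.l 0)) (.n 2 (.l 0) (.l 0)))) (.n 2 (.n 2 (.l 0) (.l 0)) (.n 0 (.l 0) (.l 0))))
    [(207877046272, 12026118144), (206158430208, 68719476736), (2748779069440, 2748779069440)] rfl (by decide +kernel)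
end

mutual
theorem A2_c0_t26 : CovD 1 gA2 [(207877046272, 12026118144), (137438953472, 137438953472), (8246337208320, 2748779069440)] :=
  covD_E kA2_eq (.n 2 (.n 1 (.n 2 (.l 0) (.l 0)) (.n 2 (.l 0) (.l 0))) (.n 2 (.n 1 (.l 0) (.l 0)) (.l 1)))
    [(207877046272, 12026118144), (137438953472, 137438953472), (8246337208320, 2748779069440)] rfl (by decide +kernel)
theorem A2_c0_t29 : CovD 1 gA2 [(207877046272, 12026118144), (343597383680, 68719476736), (2748779069440, 2748779069440)] :=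
  covD_E kA2_eq (.n 2 (.n 2 (.n 0 (.n 2 (.l 0) (.l 0)) (.n 2 (.l 0) (.l 0))) (.n 2 (.n 0 (.l 0) (.l 0)) (.l 0))) (.n 2 (.n 2 (.l 0) (.l 0)) (.n 0 (.l 0) (.l 0))))
    [(207877046272, 12026118144), (343597383680, 68719476736), (2748779069440, 2748779069440)] rfl (by decide +kernel)
end

mutual
theorem A2_c0_t30 : CovD 1 gA2 [(207877046272, 12026118144), (481036337152, 68719476736), (2748779069440, 2748779069440)] :=
  covD_E kA2_eq (.n 2 (.n 2 (.n 0 (.n 2 (.l 0) (.l 0)) (.n 2 (.l 0) (.l 0))) (.n 2 (.l 0) (.l 0))) (.n 0 (.n 2 (.l 0) (.l 0)) (.n 2 (.l 0) (.l 0))))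
    [(207877046272, 12026118144), (481036337152, 68719476736), (2748779069440, 2748779069440)] rfl (by decide +kernel)
theorem A2_c0_t31 : CovD 1 gA2 [(207877046272, 12026118144), (412316860416, 137438953472), (8246337208320, 2748779069440)] :=
  covD_E kA2_eq (.n 2 (.n 1 (.n 2 (.l 0) (.l 0)) (.n 2 (.l 0) (.l 0))) (.n 2 (.n 0 (.l 0) (.l 0)) (.l 1)))
    [(207877046272, 12026118144), (412316860416, 137438953472), (8246337208320, 2748779069440)] rfl (by decide +kernel)
end

mutual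
theorem A2_c0_t34 : CovD 1 gA2 [(207877046272, 12026118144), (618475290624, 68719476736), (5497558138880, 5497558138880)] :=
  covD_E kA2_eq (.n 2 (.n 2 (.n 2 (.n 2 (.l 0) (.l 0)) (.n 2 (.l 0) (.l 0))) (.n 0 (.n 2 (.l 0) (.l 0)) (.n 2 (.l 0) (.l 0)))) (.n 2 (.n 2 (.l 0) (.l 0)) (.n 0 (.l 0) (.l 0))))
    [(207877046272, 12026118144), (618475290624, 68719476736), (5497558138880, 5497558138880)] rfl (by decide +kernel)
theorem A2_c0_t35 : CovD 1 gA2 [(207877046272, 12026118144), (755914244096, 68719476736), (5497558138880, 5497558138880)] :=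
  covD_E kA2_eq (.n 2 (.n 2 (.n 2 (.n 2 (.l 0) (.l 0)) (.n 2 (.l 0) (.l 0))) (.n 0 (.n 2 (.l 0) (.l 0)) (.n 2 (.l 0) (.l 0)))) (.n 2 (.n 2 (.l 0) (.l 0)) (.n 0 (.l 0) (.l 0))))
    [(207877046272, 12026118144), (755914244096, 68719476736), (5497558138880, 5497558138880)] rfl (by decide +kernel)
end

mutual
theorem A2_c0_t37 : CovD 1 gA2 [(207877046272, 12026118144), (893353197568, 68719476736), (5497558138880, 5497558138880)] :=
  covD_E kA2_eq (.n 2 (.n 2 (.n 2 (.n 2 (.l 0) (.l 0)) (.n 2 (.l 0) (.l 0))) (.n 0 (.n 2 (.l 0) (.l 0)) (.n 2 (.l 0) (.l 0)))) (.n 2 (.n 2 (.l 0) (.l 0)) (.n 0 (.l 0) (.l 0))))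
    [(207877046272, 12026118144), (893353197568, 68719476736), (5497558138880, 5497558138880)] rfl (by decide +kernel)
theorem A2_c0_t38 : CovD 1 gA2 [(207877046272, 12026118144), (1030792151040, 68719476736), (5497558138880, 5497558138880)] :=
  covD_E kA2_eq (.n 2 (.n 2 (.n 2 (.n 2 (.l 0) (.l 0)) (.n 2 (.l 0) (.l 0))) (.n 0 (.n 2 (.l 0) (.l 0)) (.n 2 (.l 0) (.l 0)))) (.n 2 (.n 2 (.l 0) (.l 0)) (.n 0 (.l 0) (.l 0))))
    [(207877046272, 12026118144), (1030792151040, 68719476736), (5497558138880, 5497558138880)] rfl (by decide +kernel)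
end

mutual
theorem B2_c0_t2 : CovD 1 gB2 [(183824809984, 12026118144), (274877906944, 274877906944), (54975791104, 54975791104)] :=
  covD_E kB2_eq (.n 1 (.n 2 (.n 2 (.l 1) (.l 1)) (.n 2 (.l 1) (.l 1))) (.n 2 (.n 2 (.l 1) (.l 1)) (.n 2 (.l 1) (.l 1))))
    [(183824809984, 12026118144), (274877906944, 274877906944), (54975791104, 54975791104)] rfl (by decide +kernel)
theorem B2_c0_t3 : CovD 1 gB2 [(183824809984, 12026118144), (824633720832, 274877906944), (54975791104, 54975791104)] :=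
  covD_E kB2_eq (.n 1 (.n 2 (.n 2 (.l 1) (.l 1)) (.n 2 (.l 1) (.l 1))) (.n 2 (.n 2 (.l 1) (.l 1)) (.n 2 (.l 1) (.n 0 (.l 1) (.l 0)))))
    [(183824809984, 12026118144), (824633720832, 274877906944), (54975791104, 54975791104)] rfl (by decide +kernel)
end

mutual
theorem B2_c0_t5 : CovD 1 gB2 [(207877046272, 12026118144), (274877906944, 274877906944), (54975791104, 54975791104)] :=
  covD_E kB2_eq (.n 1 (.n 2 (.n 2 (.l 1) (.l 1)) (.n 2 (.l 1) (.n 0 (.l 1) (.l 1)))) (.n 2 (.n 2 (.l 1) (.l 1)) (.n 2 (.l 1) (.l 1))))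
    [(207877046272, 12026118144), (274877906944, 274877906944), (54975791104, 54975791104)] rfl (by decide +kernel)
theorem B2_c0_t6 : CovD 1 gB2 [(207877046272, 12026118144), (824633720832, 274877906944), (54975791104, 54975791104)] :=
  covD_E kB2_eq (.n 1 (.n 2 (.n 2 (.l 1) (.l 1)) (.n 2 (.l 1) (.n 0 (.l 0) (.l 0)))) (.n 2 (.n 2 (.l 1) (.l 1)) (.n 0 (.n 2 (.l 0) (.l 0)) (.n 2 (.l 0) (.l 0)))))
    [(207877046272, 12026118144), (824633720832, 274877906944), (54975791104, 54975791104)] rfl (by decide +kernel)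
end

mutual
theorem D2_c0_t2 : CovD 1 gD2 [(183824809984, 12026118144), (274877906944, 274877906944), (863554764800, 863554764800)] :=
  covD_E kD2_eq (.n 1 (.n 2 (.n 1 (.n 2 (.l 0) (.l 0)) (.n 2 (.l 0) (.l 0))) (.n 2 (.n 1 (.l 0) (.l 0)) (.n 2 (.l 0) (.l 0)))) (.n 2 (.n 1 (.n 2 (.l 0) (.l 0)) (.n 2 (.l 0) (.l 0))) (.n 2 (.n 1 (.l 0) (.l 0)) (.n 2 (.l 0) (.l 0)))))
    [(183824809984, 12026118144), (274877906944, 274877906944), (863554764800, 863554764800)] rfl (by decide +kernel)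
theorem D2_c0_t4 : CovD 1 gD2 [(183824809984, 12026118144), (687194767360, 137438953472), (863554764800, 863554764800)] :=
  covD_E kD2_eq (.n 2 (.n 1 (.n 2 (.l 0) (.l 0)) (.n 2 (.l 0) (.l 0))) (.n 2 (.n 2 (.l 0) (.l 0)) (.n 2 (.l 0) (.n 0 (.l 0) (.l 0)))))
    [(183824809984, 12026118144), (687194767360, 137438953472), (863554764800, 863554764800)] rfl (by decide +kernel)
end

mutual
theorem D2_c0_t5 : CovD 1 gD2 [(183824809984, 12026118144), (962072674304, 137438953472), (863554764800, 863554764800)] :=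
  covD_E kD2_eq (.n 2 (.n 2 (.n 1 (.l 0) (.l 0)) (.n 2 (.l 0) (.l 0))) (.n 2 (.n 2 (.l 0) (.l 0)) (.n 0 (.n 2 (.l 0) (.l 0)) (.n 2 (.l 0) (.l 0)))))
    [(183824809984, 12026118144), (962072674304, 137438953472), (863554764800, 863554764800)] rfl (by decide +kernel)
theorem D2_c0_t7 : CovD 1 gD2 [(207877046272, 12026118144), (274877906944, 274877906944), (863554764800, 863554764800)] :=
  covD_E kD2_eq (.n 1 (.n 2 (.n 1 (.n 2 (.l 0) (.l 0)) (.n 2 (.l 0) (.l 0))) (.n 2 (.n 1 (.l 0) (.l 0)) (.n 2 (.l 0) (.l 0)))) (.n 2 (.n 1 (.n 2 (.l 0) (.l 0)) (.n 2 (.l 0) (.l 0))) (.n 2 (.n 1 (.l 0) (.l 0)) (.n 2 (.l 0) (.l 0)))))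
    [(207877046272, 12026118144), (274877906944, 274877906944), (863554764800, 863554764800)] rfl (by decide +kernel)
end

mutual
theorem D2_c0_t9 : CovD 1 gD2 [(207877046272, 12026118144), (687194767360, 137438953472), (863554764800, 863554764800)] :=
  covD_E kD2_eq (.n 2 (.n 1 (.n 2 (.l 0) (.l 0)) (.n 2 (.l 0) (.l 0))) (.n 2 (.n 1 (.l 0) (.l 0)) (.n 2 (.l 0) (.l 0))))
    [(207877046272, 12026118144), (687194767360, 137438953472), (863554764800, 863554764800)] rfl (by decide +kernel)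
theorem D2_c0_t10 : CovD 1 gD2 [(207877046272, 12026118144), (962072674304, 137438953472), (863554764800, 863554764800)] :=
  covD_E kD2_eq (.n 2 (.n 1 (.n 2 (.l 0) (.l 0)) (.n 2 (.l 0) (.l 0))) (.n 2 (.n 2 (.l 0) (.l 0)) (.n 2 (.l 0) (.n 0 (.l 0) (.l 0)))))
    [(207877046272, 12026118144), (962072674304, 137438953472), (863554764800, 863554764800)] rfl (by decide +kernel)
end

mutual
theorem E2_c0_t2 : CovD 1 gE2 [(195850928128, 24052236288), (137438953472, 137438953472), (863554764800, 863554764800)] :=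
  covD_E kE2_eq (.n 2 (.n 2 (.l 1) (.n 0 (.l 1) (.l 1))) (.n 0 (.n 2 (.n 2 (.l 1) (.n 1 (.l 0) (.l 0))) (.n 2 (.n 0 (.l 0) (.l 0)) (.l 0))) (.n 2 (.n 2 (.l 1) (.l 1)) (.n 2 (.n 0 (.l 0) (.l 0)) (.l 0)))))
    [(195850928128, 24052236288), (137438953472, 137438953472), (863554764800, 863554764800)] rfl (by decide +kernel)
theorem E2_c0_t3 : CovD 1 gE2 [(195850928128, 24052236288), (412316860416, 137438953472), (863554764800, 863554764800)] :=
  covD_E kE2_eq (.n 2 (.n 2 (.l 1) (.n 0 (.l 1) (.l 1))) (.n 0 (.n 2 (.n 2 (.l 1) (.n 0 (.l 0) (.l 0))) (.n 2 (.l 0) (.l 0))) (.n 2 (.n 2 (.l 1) (.l 1)) (.n 2 (.l 0) (.l 0)))))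
    [(195850928128, 24052236288), (412316860416, 137438953472), (863554764800, 863554764800)] rfl (by decide +kernel)
end

mutual
theorem E2_c0_t5 : CovD 1 gE2 [(195850928128, 24052236288), (687194767360, 137438953472), (863554764800, 863554764800)] :=
  covD_E kE2_eq (.n 2 (.n 2 (.l 1) (.n 0 (.l 1) (.l 1))) (.n 0 (.n 2 (.n 2 (.l 1) (.n 0 (.l 0) (.l 0))) (.n 0 (.n 2 (.l 0) (.l 0)) (.n 2 (.l 0) (.l 0)))) (.n 2 (.n 2 (.l 1) (.l 1)) (.n 2 (.n 0 (.l 0) (.l 0)) (.l 0)))))
    [(195850928128, 24052236288), (687194767360, 137438953472), (863554764800, 863554764800)] rfl (by decide +kernel)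
theorem E2_c0_t7 : CovD 1 gE2 [(195850928128, 24052236288), (962072674304, 137438953472), (431777382400, 431777382400)] :=
  covD_E kE2_eq (.n 2 (.n 2 (.l 1) (.l 1)) (.n 0 (.l 1) (.l 1)))
    [(195850928128, 24052236288), (962072674304, 137438953472), (431777382400, 431777382400)] rfl (by decide +kernel)
end

theorem E2_c0_t8 : CovD 1 gE2 [(195850928128, 24052236288), (962072674304, 137438953472), (1295332147200, 431777382400)] :=
  covD_E kE2_eq (.n 0 (.n 2 (.n 2 (.l 1) (.n 1 (.l 0) (.l 0))) (.n 0 (.n 2 (.l 0) (.l 0)) (.n 2 (.l 0) (.l 0)))) (.n 2 (.n 2 (.l 1) (.l 1)) (.n 0 (.n 2 (.l 0) (.l 0)) (.n 2 (.l 0) (.l 0)))))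
    [(195850928128, 24052236288), (962072674304, 137438953472), (1295332147200, 431777382400)] rfl (by decide +kernel)

theorem A2_c0_t4 : CovD 1 gA2 [(183824809984, 12026118144), (137438953472, 137438953472), (2748779069440, 2748779069440)] :=
  covD_split 1 (by decide +kernel) A2_c0_t5 A2_c0_t6

theorem A2_c0_t3 : CovD 1 gA2 [(183824809984, 12026118144), (137438953472, 137438953472), (5497558138880, 5497558138880)] :=
  covD_split 2 (by decide +kernel) A2_c0_t4 A2_c0_t7

theorem A2_c0_t9 : CovD 1 gA2 [(183824809984, 12026118144), (412316860416, 137438953472), (2748779069440, 2748779069440)] :=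
  covD_split 1 (by decide +kernel) A2_c0_t10 A2_c0_t11

theorem A2_c0_t8 : CovD 1 gA2 [(183824809984, 12026118144), (412316860416, 137438953472), (5497558138880, 5497558138880)] :=
  covD_split 2 (by decide +kernel) A2_c0_t9 A2_c0_t12

theorem A2_c0_t2 : CovD 1 gA2 [(183824809984, 12026118144), (274877906944, 274877906944), (5497558138880, 5497558138880)] :=
  covD_split 1 (by decide +kernel) A2_c0_t3 A2_c0_t8

theorem A2_c0_t14 : CovD 1 gA2 [(183824809984, 12026118144), (687194767360, 137438953472), (5497558138880, 5497558138880)] :=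
  covD_split 2 (by decide +kernel) A2_c0_t15 A2_c0_t16

theorem A2_c0_t17 : CovD 1 gA2 [(183824809984, 12026118144), (962072674304, 137438953472), (5497558138880, 5497558138880)] :=
  covD_split 0 (by decide +kernel) A2_c0_t18 A2_c0_t19

theorem A2_c0_t13 : CovD 1 gA2 [(183824809984, 12026118144), (824633720832, 274877906944), (5497558138880, 5497558138880)] :=
  covD_split 1 (by decide +kernel) A2_c0_t14 A2_c0_t17

theorem A2_c0_t1 : CovD 1 gA2 [(183824809984, 12026118144), (549755813888, 549755813888), (5497558138880, 5497558138880)] :=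
  covD_split 1 (by decide +kernel) A2_c0_t2 A2_c0_t13

theorem A2_c0_t23 : CovD 1 gA2 [(207877046272, 12026118144), (137438953472, 137438953472), (2748779069440, 2748779069440)] :=
  covD_split 1 (by decide +kernel) A2_c0_t24 A2_c0_t25

theorem A2_c0_t22 : CovD 1 gA2 [(207877046272, 12026118144), (137438953472, 137438953472), (5497558138880, 5497558138880)] :=
  covD_split 2 (by decide +kernel) A2_c0_t23 A2_c0_t26

theorem A2_c0_t28 : CovD 1 gA2 [(207877046272, 12026118144), (412316860416, 137438953472), (2748779069440, 2748779069440)] :=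
  covD_split 1 (by decide +kernel) A2_c0_t29 A2_c0_t30

theorem A2_c0_t27 : CovD 1 gA2 [(207877046272, 12026118144), (412316860416, 137438953472), (5497558138880, 5497558138880)] :=
  covD_split 2 (by decide +kernel) A2_c0_t28 A2_c0_t31

theorem A2_c0_t21 : CovD 1 gA2 [(207877046272, 12026118144), (274877906944, 274877906944), (5497558138880, 5497558138880)] :=
  covD_split 1 (by decide +kernel) A2_c0_t22 A2_c0_t27

theorem A2_c0_t33 : CovD 1 gA2 [(207877046272, 12026118144), (687194767360, 137438953472), (5497558138880, 5497558138880)] :=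
  covD_split 1 (by decide +kernel) A2_c0_t34 A2_c0_t35

theorem A2_c0_t36 : CovD 1 gA2 [(207877046272, 12026118144), (962072674304, 137438953472), (5497558138880, 5497558138880)] :=
  covD_split 1 (by decide +kernel) A2_c0_t37 A2_c0_t38

theorem A2_c0_t32 : CovD 1 gA2 [(207877046272, 12026118144), (824633720832, 274877906944), (5497558138880, 5497558138880)] :=
  covD_split 1 (by decide +kernel) A2_c0_t33 A2_c0_t36

theorem A2_c0_t20 : CovD 1 gA2 [(207877046272, 12026118144), (549755813888, 549755813888), (5497558138880, 5497558138880)] :=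
  covD_split 1 (by decide +kernel) A2_c0_t21 A2_c0_t32

theorem A2_c0 : CovD 1 gA2 [(195850928128, 24052236288), (549755813888, 549755813888), (5497558138880, 5497558138880)] :=
  covD_split 0 (by decide +kernel) A2_c0_t1 A2_c0_t20

theorem B2_c0_t1 : CovD 1 gB2 [(183824809984, 12026118144), (549755813888, 549755813888), (54975791104, 54975791104)] :=
  covD_split 1 (by decide +kernel) B2_c0_t2 B2_c0_t3

theorem B2_c0_t4 : CovD 1 gB2 [(207877046272, 12026118144), (549755813888, 549755813888), (54975791104, 54975791104)] :=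
  covD_split 1 (by decide +kernel) B2_c0_t5 B2_c0_t6

theorem B2_c0 : CovD 1 gB2 [(195850928128, 24052236288), (549755813888, 549755813888), (54975791104, 54975791104)] :=
  covD_split 0 (by decide +kernel) B2_c0_t1 B2_c0_t4

theorem D2_c0_t3 : CovD 1 gD2 [(183824809984, 12026118144), (824633720832, 274877906944), (863554764800, 863554764800)] :=
  covD_split 1 (by decide +kernel) D2_c0_t4 D2_c0_t5

theorem D2_c0_t1 : CovD 1 gD2 [(183824809984, 12026118144), (549755813888, 549755813888), (863554764800, 863554764800)] :=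
  covD_split 1 (by decide +kernel) D2_c0_t2 D2_c0_t3

theorem D2_c0_t8 : CovD 1 gD2 [(207877046272, 12026118144), (824633720832, 274877906944), (863554764800, 863554764800)] :=
  covD_split 1 (by decide +kernel) D2_c0_t9 D2_c0_t10

theorem D2_c0_t6 : CovD 1 gD2 [(207877046272, 12026118144), (549755813888, 549755813888), (863554764800, 863554764800)] :=
  covD_split 1 (by decide +kernel) D2_c0_t7 D2_c0_t8

theorem D2_c0 : CovD 1 gD2 [(195850928128, 24052236288), (549755813888, 549755813888), (863554764800, 863554764800)] :=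
  covD_split 0 (by decide +kernel) D2_c0_t1 D2_c0_t6

theorem E2_c0_t1 : CovD 1 gE2 [(195850928128, 24052236288), (274877906944, 274877906944), (863554764800, 863554764800)] :=
  covD_split 1 (by decide +kernel) E2_c0_t2 E2_c0_t3

theorem E2_c0_t6 : CovD 1 gE2 [(195850928128, 24052236288), (962072674304, 137438953472), (863554764800, 863554764800)] :=
  covD_split 2 (by decide +kernel) E2_c0_t7 E2_c0_t8

theorem E2_c0_t4 : CovD 1 gE2 [(195850928128, 24052236288), (824633720832, 274877906944), (863554764800, 863554764800)] :=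
  covD_split 1 (by decide +kernel) E2_c0_t5 E2_c0_t6

theorem E2_c0 : CovD 1 gE2 [(195850928128, 24052236288), (549755813888, 549755813888), (863554764800, 863554764800)] :=
  covD_split 1 (by decide +kernel) E2_c0_t1 E2_c0_t4

end Pool.Agent.helper14.NR.E5d
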