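import Pool.Agent.helper14.NR.E5d.PN4

/-!
Generated: certificates.
-/

namespace Pool.Agent.helper14.NR.E5d

open Pool.Agent.helper31.IA (Z)
open Pool.Agent.helper31.IX (Op XOps runX Cov CovD cov_split covD_split)
open Pool.Agent.helper31.IC (TD)
open Pool.Agent.helper63.RG (reloc)
open Pool.Agent.helper63.NF hiding TD
open Pool.Agent.helper14.CF (xE covD_E)
open Pool.Agent.helper14.NR (share)

mutual
theorem E4_c0_t2 : CovD 1 gE4 [(195850928128, 24052236288), (274877906944, 274877906944), (431777382400, 431777382400)] :=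
  covD_E kE4_eq (.n 1 (.n 2 (.n 2 (.l 1) (.l 1)) (.n 2 (.l 1) (.l 1))) (.n 2 (.n 2 (.l 1) (.l 1)) (.n 2 (.l 1) (.l 1))))
    [(195850928128, 24052236288), (274877906944, 274877906944), (431777382400, 431777382400)] rfl (by decide +kernel)
theorem E4_c0_t3 : CovD 1 gE4 [(195850928128, 24052236288), (824633720832, 274877906944), (431777382400, 431777382400)] :=
  covD_E kE4_eq (.n 1 (.n 2 (.n 1 (.n 2 (.l 1) (.l 1)) (.n 2 (.l 2) (.l 1))) (.n 2 (.n 0 (.l 1) (.l 1)) (.l 1))) (.n 2 (.n 2 (.l 2) (.l 2)) (.n 2 (.n 0 (.l 1) (.l 1)) (.l 1))))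
    [(195850928128, 24052236288), (824633720832, 274877906944), (431777382400, 431777382400)] rfl (by decide +kernel)
end

mutual
theorem E4_c0_t5 : CovD 1 gE4 [(195850928128, 24052236288), (274877906944, 274877906944), (1295332147200, 431777382400)] :=
  covD_E kE4_eq (.n 1 (.n 1 (.n 2 (.l 1) (.n 0 (.l 1) (.l 1))) (.n 2 (.l 1) (.l 1))) (.n 1 (.n 2 (.l 1) (.l 1)) (.n 2 (.l 1) (.l 1))))
    [(195850928128, 24052236288), (274877906944, 274877906944), (1295332147200, 431777382400)] rfl (by decide +kernel)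
theorem E4_c0_t6 : CovD 1 gE4 [(195850928128, 24052236288), (824633720832, 274877906944), (1295332147200, 431777382400)] :=
  covD_E kE4_eq (.n 1 (.n 1 (.n 2 (.l 1) (.l 1)) (.n 2 (.l 1) (.l 1))) (.n 2 (.n 2 (.l 1) (.l 1)) (.n 0 (.l 1) (.l 1))))
    [(195850928128, 24052236288), (824633720832, 274877906944), (1295332147200, 431777382400)] rfl (by decide +kernel)
end

theorem E4_c0_t1 : CovD 1 gE4 [(195850928128, 24052236288), (549755813888, 549755813888), (431777382400, 431777382400)] :=
  covD_split 1 (by decide +kernel) E4_c0_t2 E4_c0_t3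

theorem E4_c0_t4 : CovD 1 gE4 [(195850928128, 24052236288), (549755813888, 549755813888), (1295332147200, 431777382400)] :=
  covD_split 1 (by decide +kernel) E4_c0_t5 E4_c0_t6

theorem E4_c0 : CovD 1 gE4 [(195850928128, 24052236288), (549755813888, 549755813888), (863554764800, 863554764800)] :=
  covD_split 2 (by decide +kernel) E4_c0_t1 E4_c0_t4

end Pool.Agent.helper14.NR.E5d
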