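import Pool.Agent.helper14.NR.E5d.PN5

/-!
Generated: certificates.
-/

namespace Pool.Agent.helper14.NR.E5d

open Pool.Agent.helper31.IA (Z)
open Pool.Agent.helper31.IX (Op XOps runX Cov CovD cov_split covD_split)
open Pool.Agent.helper31.IC (TD)
open Pool.Agent.helper63.RG (reloc)
open Pool.Agent.helper63.NF hiding TD
open Pool.Agent.helper14.CF (xE covD_E)
open Pool.Agent.helper14.NR (share)

mutual
theorem A5_c0_t6 : CovD 1 gA5 [(177811750912, 6013059072), (34359738368, 34359738368), (2748779069440, 2748779069440)] :=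
  covD_E kA5_eq (.n 2 (.n 2 (.n 2 (.n 2 (.l 0) (.l 0)) (.n 2 (.l 0) (.l 0))) (.n 2 (.n 0 (.l 0) (.l 0)) (.l 0))) (.n 2 (.n 2 (.l 0) (.l 0)) (.n 0 (.l 0) (.l 0))))
    [(177811750912, 6013059072), (34359738368, 34359738368), (2748779069440, 2748779069440)] rfl (by decide +kernel)
theorem A5_c0_t7 : CovD 1 gA5 [(189837869056, 6013059072), (34359738368, 34359738368), (2748779069440, 2748779069440)] :=
  covD_E kA5_eq (.n 2 (.n 2 (.n 2 (.n 2 (.l 0) (.l 0)) (.n 2 (.l 0) (.l 0))) (.n 2 (.n 0 (.l 0) (.l 0)) (.l 0))) (.n 2 (.n 2 (.l 0) (.l 0)) (.n 0 (.l 0) (.l 0))))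
    [(189837869056, 6013059072), (34359738368, 34359738368), (2748779069440, 2748779069440)] rfl (by decide +kernel)
end

mutual
theorem A5_c0_t8 : CovD 1 gA5 [(183824809984, 12026118144), (34359738368, 34359738368), (8246337208320, 2748779069440)] :=
  covD_E kA5_eq (.n 2 (.n 0 (.n 2 (.l 0) (.l 0)) (.n 2 (.l 0) (.l 0))) (.n 2 (.n 0 (.l 0) (.l 0)) (.l 0)))
    [(183824809984, 12026118144), (34359738368, 34359738368), (8246337208320, 2748779069440)] rfl (by decide +kernel)
theorem A5_c0_t11 : CovD 1 gA5 [(183824809984, 12026118144), (103079215104, 34359738368), (1374389534720, 1374389534720)] :=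
  covD_E kA5_eq (.n 0 (.n 2 (.n 2 (.n 2 (.l 0) (.l 0)) (.n 0 (.l 0) (.l 0))) (.n 2 (.l 0) (.l 0))) (.n 2 (.n 2 (.n 2 (.l 0) (.l 0)) (.n 0 (.l 0) (.l 0))) (.n 2 (.l 0) (.l 0))))
    [(183824809984, 12026118144), (103079215104, 34359738368), (1374389534720, 1374389534720)] rfl (by decide +kernel)
end

mutual
theorem A5_c0_t12 : CovD 1 gA5 [(183824809984, 12026118144), (103079215104, 34359738368), (4123168604160, 1374389534720)] :=
  covD_E kA5_eq (.n 2 (.n 0 (.n 2 (.l 0) (.l 0)) (.n 2 (.l 0) (.l 0))) (.n 2 (.n 0 (.l 0) (.l 0)) (.l 0)))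
    [(183824809984, 12026118144), (103079215104, 34359738368), (4123168604160, 1374389534720)] rfl (by decide +kernel)
theorem A5_c0_t13 : CovD 1 gA5 [(183824809984, 12026118144), (103079215104, 34359738368), (8246337208320, 2748779069440)] :=
  covD_E kA5_eq (.n 2 (.n 0 (.n 2 (.l 0) (.l 0)) (.n 2 (.l 0) (.l 0))) (.n 2 (.n 0 (.l 0) (.l 0)) (.l 0)))
    [(183824809984, 12026118144), (103079215104, 34359738368), (8246337208320, 2748779069440)] rfl (by decide +kernel)
end

mutual
theorem A5_c0_t17 : CovD 1 gA5 [(183824809984, 12026118144), (171798691840, 34359738368), (1374389534720, 1374389534720)] :=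
  covD_E kA5_eq (.n 2 (.n 2 (.n 2 (.l 0) (.l 0)) (.n 0 (.n 0 (.l 0) (.l 0)) (.n 0 (.l 0) (.l 0)))) (.n 0 (.n 2 (.l 0) (.l 0)) (.n 2 (.l 0) (.l 0))))
    [(183824809984, 12026118144), (171798691840, 34359738368), (1374389534720, 1374389534720)] rfl (by decide +kernel)
theorem A5_c0_t18 : CovD 1 gA5 [(183824809984, 12026118144), (171798691840, 34359738368), (4123168604160, 1374389534720)] :=
  covD_E kA5_eq (.n 2 (.n 0 (.n 2 (.l 0) (.l 0)) (.n 2 (.l 0) (.l 0))) (.n 2 (.n 0 (.l 0) (.l 0)) (.l 0)))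
    [(183824809984, 12026118144), (171798691840, 34359738368), (4123168604160, 1374389534720)] rfl (by decide +kernel)
end

mutual
theorem A5_c0_t19 : CovD 1 gA5 [(183824809984, 12026118144), (171798691840, 34359738368), (8246337208320, 2748779069440)] :=
  covD_E kA5_eq (.n 2 (.n 0 (.n 2 (.l 0) (.l 0)) (.n 2 (.l 0) (.l 0))) (.n 2 (.n 0 (.l 0) (.l 0)) (.l 0)))
    [(183824809984, 12026118144), (171798691840, 34359738368), (8246337208320, 2748779069440)] rfl (by decide +kernel)
theorem A5_c0_t21 : CovD 1 gA5 [(183824809984, 12026118144), (240518168576, 34359738368), (2748779069440, 2748779069440)] :=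
  covD_E kA5_eq (.n 2 (.n 2 (.n 2 (.n 2 (.l 0) (.l 0)) (.n 2 (.l 0) (.l 0))) (.n 0 (.n 2 (.l 0) (.l 0)) (.n 2 (.l 0) (.l 0)))) (.n 0 (.n 2 (.n 2 (.l 0) (.l 0)) (.l 0)) (.n 2 (.n 2 (.l 0) (.l 0)) (.n 0 (.l 0) (.l 0)))))
    [(183824809984, 12026118144), (240518168576, 34359738368), (2748779069440, 2748779069440)] rfl (by decide +kernel)
end

mutual
theorem A5_c0_t22 : CovD 1 gA5 [(183824809984, 12026118144), (240518168576, 34359738368), (8246337208320, 2748779069440)] :=
  covD_E kA5_eq (.n 2 (.n 0 (.n 2 (.l 0) (.l 0)) (.n 2 (.l 0) (.l 0))) (.n 2 (.n 0 (.l 0) (.l 0)) (.l 0)))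
    [(183824809984, 12026118144), (240518168576, 34359738368), (8246337208320, 2748779069440)] rfl (by decide +kernel)
theorem A5_c0_t26 : CovD 1 gA5 [(183824809984, 12026118144), (309237645312, 34359738368), (2748779069440, 2748779069440)] :=
  covD_E kA5_eq (.n 0 (.n 2 (.n 2 (.n 2 (.l 0) (.l 0)) (.n 2 (.l 0) (.l 0))) (.n 2 (.n 2 (.l 0) (.l 0)) (.l 0))) (.n 2 (.n 2 (.n 2 (.l 0) (.l 0)) (.n 2 (.l 0) (.l 0))) (.n 2 (.n 2 (.l 0) (.l 0)) (.n 0 (.l 0) (.l 0)))))
    [(183824809984, 12026118144), (309237645312, 34359738368), (2748779069440, 2748779069440)] rfl (by decide +kernel)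
end

mutual
theorem A5_c0_t27 : CovD 1 gA5 [(183824809984, 12026118144), (309237645312, 34359738368), (8246337208320, 2748779069440)] :=
  covD_E kA5_eq (.n 2 (.n 0 (.n 2 (.l 0) (.l 0)) (.n 2 (.l 0) (.l 0))) (.n 2 (.n 0 (.l 0) (.l 0)) (.l 0)))
    [(183824809984, 12026118144), (309237645312, 34359738368), (8246337208320, 2748779069440)] rfl (by decide +kernel)
theorem A5_c0_t29 : CovD 1 gA5 [(183824809984, 12026118144), (377957122048, 34359738368), (2748779069440, 2748779069440)] :=
  covD_E kA5_eq (.n 2 (.n 0 (.n 2 (.n 2 (.l 0) (.l 0)) (.n 2 (.l 0) (.l 0))) (.n 2 (.n 2 (.l 0) (.l 0)) (.n 2 (.l 0) (.l 0)))) (.n 2 (.n 0 (.n 2 (.l 0) (.l 0)) (.n 2 (.l 0) (.l 0))) (.n 2 (.n 0 (.l 0) (.l 0)) (.l 0))))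
    [(183824809984, 12026118144), (377957122048, 34359738368), (2748779069440, 2748779069440)] rfl (by decide +kernel)
end

mutual
theorem A5_c0_t30 : CovD 1 gA5 [(183824809984, 12026118144), (377957122048, 34359738368), (8246337208320, 2748779069440)] :=
  covD_E kA5_eq (.n 2 (.n 0 (.n 2 (.l 0) (.l 0)) (.n 2 (.l 0) (.l 0))) (.n 2 (.n 0 (.l 0) (.l 0)) (.l 0)))
    [(183824809984, 12026118144), (377957122048, 34359738368), (8246337208320, 2748779069440)] rfl (by decide +kernel)
theorem A5_c0_t33 : CovD 1 gA5 [(177811750912, 6013059072), (481036337152, 68719476736), (2748779069440, 2748779069440)] :=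
  covD_E kA5_eq (.n 2 (.n 1 (.n 2 (.n 2 (.l 0) (.l 0)) (.n 2 (.l 0) (.l 0))) (.n 2 (.n 2 (.l 0) (.l 0)) (.n 2 (.l 0) (.l 0)))) (.n 2 (.n 0 (.n 2 (.l 0) (.l 0)) (.n 2 (.l 0) (.l 0))) (.n 2 (.l 0) (.l 0))))
    [(177811750912, 6013059072), (481036337152, 68719476736), (2748779069440, 2748779069440)] rfl (by decide +kernel)
end

mutual
theorem A5_c0_t34 : CovD 1 gA5 [(177811750912, 6013059072), (481036337152, 68719476736), (8246337208320, 2748779069440)] :=
  covD_E kA5_eq (.n 1 (.n 2 (.n 2 (.l 0) (.l 0)) (.n 1 (.l 0) (.l 0))) (.n 2 (.n 2 (.l 0) (.l 0)) (.n 2 (.l 0) (.l 0))))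
    [(177811750912, 6013059072), (481036337152, 68719476736), (8246337208320, 2748779069440)] rfl (by decide +kernel)
theorem A5_c0_t36 : CovD 1 gA5 [(189837869056, 6013059072), (481036337152, 68719476736), (2748779069440, 2748779069440)] :=
  covD_E kA5_eq (.n 2 (.n 1 (.n 2 (.n 2 (.l 0) (.l 0)) (.n 2 (.l 0) (.l 0))) (.n 2 (.n 2 (.l 0) (.l 0)) (.n 2 (.l 0) (.l 0)))) (.n 2 (.n 0 (.n 2 (.l 0) (.l 0)) (.n 2 (.l 0) (.l 0))) (.n 2 (.n 0 (.l 0) (.l 0)) (.l 0))))
    [(189837869056, 6013059072), (481036337152, 68719476736), (2748779069440, 2748779069440)] rfl (by decide +kernel)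
end

mutual
theorem A5_c0_t37 : CovD 1 gA5 [(189837869056, 6013059072), (481036337152, 68719476736), (8246337208320, 2748779069440)] :=
  covD_E kA5_eq (.n 1 (.n 2 (.n 2 (.l 0) (.l 0)) (.n 2 (.l 0) (.l 0))) (.n 2 (.n 2 (.l 0) (.l 0)) (.n 2 (.l 0) (.l 0))))
    [(189837869056, 6013059072), (481036337152, 68719476736), (8246337208320, 2748779069440)] rfl (by decide +kernel)
theorem A5_c0_t43 : CovD 1 gA5 [(207877046272, 12026118144), (34359738368, 34359738368), (1374389534720, 1374389534720)] :=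
  covD_E kA5_eq (.n 0 (.n 2 (.n 2 (.n 2 (.l 0) (.l 0)) (.n 2 (.l 0) (.l 0))) (.n 2 (.n 0 (.l 0) (.l 0)) (.l 0))) (.n 2 (.n 2 (.n 2 (.l 0) (.l 0)) (.n 2 (.l 0) (.l 0))) (.n 2 (.n 0 (.l 0) (.l 0)) (.l 0))))
    [(207877046272, 12026118144), (34359738368, 34359738368), (1374389534720, 1374389534720)] rfl (by decide +kernel)
end

mutual
theorem A5_c0_t44 : CovD 1 gA5 [(207877046272, 12026118144), (34359738368, 34359738368), (4123168604160, 1374389534720)] :=
  covD_E kA5_eq (.n 2 (.n 0 (.n 2 (.l 0) (.l 0)) (.n 2 (.l 0) (.l 0))) (.n 2 (.n 0 (.l 0) (.l 0)) (.l 0)))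
    [(207877046272, 12026118144), (34359738368, 34359738368), (4123168604160, 1374389534720)] rfl (by decide +kernel)
theorem A5_c0_t45 : CovD 1 gA5 [(207877046272, 12026118144), (34359738368, 34359738368), (8246337208320, 2748779069440)] :=
  covD_E kA5_eq (.n 2 (.n 0 (.n 2 (.l 0) (.l 0)) (.n 2 (.l 0) (.l 0))) (.n 2 (.n 0 (.l 0) (.l 0)) (.l 0)))
    [(207877046272, 12026118144), (34359738368, 34359738368), (8246337208320, 2748779069440)] rfl (by decide +kernel)
end

mutual
theorem A5_c0_t48 : CovD 1 gA5 [(207877046272, 12026118144), (103079215104, 34359738368), (1374389534720, 1374389534720)] :=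
  covD_E kA5_eq (.n 0 (.n 2 (.n 2 (.n 2 (.l 0) (.l 0)) (.n 1 (.l 0) (.l 0))) (.n 2 (.l 0) (.l 0))) (.n 2 (.n 2 (.n 2 (.l 0) (.l 0)) (.n 2 (.l 0) (.l 0))) (.n 2 (.n 0 (.l 0) (.l 0)) (.l 0))))
    [(207877046272, 12026118144), (103079215104, 34359738368), (1374389534720, 1374389534720)] rfl (by decide +kernel)
theorem A5_c0_t49 : CovD 1 gA5 [(207877046272, 12026118144), (103079215104, 34359738368), (4123168604160, 1374389534720)] :=
  covD_E kA5_eq (.n 2 (.n 0 (.n 2 (.l 0) (.l 0)) (.n 2 (.l 0) (.l 0))) (.n 2 (.n 0 (.l 0) (.l 0)) (.l 0)))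
    [(207877046272, 12026118144), (103079215104, 34359738368), (4123168604160, 1374389534720)] rfl (by decide +kernel)
end

mutual
theorem A5_c0_t50 : CovD 1 gA5 [(207877046272, 12026118144), (103079215104, 34359738368), (8246337208320, 2748779069440)] :=
  covD_E kA5_eq (.n 2 (.n 0 (.n 2 (.l 0) (.l 0)) (.n 2 (.l 0) (.l 0))) (.n 2 (.n 0 (.l 0) (.l 0)) (.l 0)))
    [(207877046272, 12026118144), (103079215104, 34359738368), (8246337208320, 2748779069440)] rfl (by decide +kernel)
theorem A5_c0_t54 : CovD 1 gA5 [(207877046272, 12026118144), (171798691840, 34359738368), (1374389534720, 1374389534720)] :=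
  covD_E kA5_eq (.n 2 (.n 2 (.n 2 (.l 0) (.l 0)) (.n 0 (.n 0 (.l 0) (.l 0)) (.n 0 (.l 0) (.l 0)))) (.n 0 (.n 2 (.l 0) (.l 0)) (.n 2 (.l 0) (.l 0))))
    [(207877046272, 12026118144), (171798691840, 34359738368), (1374389534720, 1374389534720)] rfl (by decide +kernel)
end

mutual
theorem A5_c0_t55 : CovD 1 gA5 [(207877046272, 12026118144), (171798691840, 34359738368), (4123168604160, 1374389534720)] :=
  covD_E kA5_eq (.n 2 (.n 0 (.n 2 (.l 0) (.l 0)) (.n 2 (.l 0) (.l 0))) (.n 2 (.n 0 (.l 0) (.l 0)) (.l 0)))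
    [(207877046272, 12026118144), (171798691840, 34359738368), (4123168604160, 1374389534720)] rfl (by decide +kernel)
theorem A5_c0_t56 : CovD 1 gA5 [(207877046272, 12026118144), (171798691840, 34359738368), (8246337208320, 2748779069440)] :=
  covD_E kA5_eq (.n 2 (.n 0 (.n 2 (.l 0) (.l 0)) (.n 2 (.l 0) (.l 0))) (.n 2 (.n 0 (.l 0) (.l 0)) (.l 0)))
    [(207877046272, 12026118144), (171798691840, 34359738368), (8246337208320, 2748779069440)] rfl (by decide +kernel)
end

mutual
theorem A5_c0_t58 : CovD 1 gA5 [(207877046272, 12026118144), (240518168576, 34359738368), (2748779069440, 2748779069440)] :=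
  covD_E kA5_eq (.n 2 (.n 2 (.n 2 (.n 2 (.l 0) (.l 0)) (.n 2 (.l 0) (.l 0))) (.n 0 (.n 2 (.l 0) (.l 0)) (.n 2 (.l 0) (.l 0)))) (.n 2 (.n 0 (.n 2 (.l 0) (.l 0)) (.n 2 (.l 0) (.l 0))) (.n 2 (.n 0 (.l 0) (.l 0)) (.l 0))))
    [(207877046272, 12026118144), (240518168576, 34359738368), (2748779069440, 2748779069440)] rfl (by decide +kernel)
theorem A5_c0_t59 : CovD 1 gA5 [(207877046272, 12026118144), (240518168576, 34359738368), (8246337208320, 2748779069440)] :=
  covD_E kA5_eq (.n 2 (.n 0 (.n 2 (.l 0) (.l 0)) (.n 2 (.l 0) (.l 0))) (.n 2 (.n 0 (.l 0) (.l 0)) (.l 0)))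
    [(207877046272, 12026118144), (240518168576, 34359738368), (8246337208320, 2748779069440)] rfl (by decide +kernel)
end

mutual
theorem A5_c0_t63 : CovD 1 gA5 [(207877046272, 12026118144), (309237645312, 34359738368), (2748779069440, 2748779069440)] :=
  covD_E kA5_eq (.n 2 (.n 2 (.n 2 (.n 2 (.l 0) (.l 0)) (.n 2 (.l 0) (.l 0))) (.n 0 (.n 2 (.l 0) (.l 0)) (.n 2 (.l 0) (.l 0)))) (.n 2 (.n 0 (.n 2 (.l 0) (.l 0)) (.n 2 (.l 0) (.l 0))) (.n 2 (.n 0 (.l 0) (.l 0)) (.l 0))))
    [(207877046272, 12026118144), (309237645312, 34359738368), (2748779069440, 2748779069440)] rfl (by decide +kernel)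
theorem A5_c0_t64 : CovD 1 gA5 [(207877046272, 12026118144), (309237645312, 34359738368), (8246337208320, 2748779069440)] :=
  covD_E kA5_eq (.n 2 (.n 0 (.n 2 (.l 0) (.l 0)) (.n 2 (.l 0) (.l 0))) (.n 2 (.n 0 (.l 0) (.l 0)) (.l 0)))
    [(207877046272, 12026118144), (309237645312, 34359738368), (8246337208320, 2748779069440)] rfl (by decide +kernel)
end

mutual
theorem A5_c0_t66 : CovD 1 gA5 [(207877046272, 12026118144), (377957122048, 34359738368), (2748779069440, 2748779069440)] :=
  covD_E kA5_eq (.n 2 (.n 2 (.n 2 (.n 2 (.l 0) (.l 0)) (.n 2 (.l 0) (.l 0))) (.n 0 (.n 2 (.l 0) (.l 0)) (.n 2 (.l 0) (.l 0)))) (.n 2 (.n 0 (.n 2 (.l 0) (.l 0)) (.n 2 (.l 0) (.l 0))) (.n 2 (.n 0 (.l 0) (.l 0)) (.l 0))))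
    [(207877046272, 12026118144), (377957122048, 34359738368), (2748779069440, 2748779069440)] rfl (by decide +kernel)
theorem A5_c0_t67 : CovD 1 gA5 [(207877046272, 12026118144), (377957122048, 34359738368), (8246337208320, 2748779069440)] :=
  covD_E kA5_eq (.n 2 (.n 0 (.n 2 (.l 0) (.l 0)) (.n 2 (.l 0) (.l 0))) (.n 2 (.n 0 (.l 0) (.l 0)) (.l 0)))
    [(207877046272, 12026118144), (377957122048, 34359738368), (8246337208320, 2748779069440)] rfl (by decide +kernel)
end

mutual
theorem A5_c0_t70 : CovD 1 gA5 [(207877046272, 12026118144), (446676598784, 34359738368), (2748779069440, 2748779069440)] :=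
  covD_E kA5_eq (.n 2 (.n 0 (.n 2 (.n 2 (.l 0) (.l 0)) (.n 2 (.l 0) (.l 0))) (.n 2 (.n 2 (.l 0) (.l 0)) (.n 2 (.l 0) (.l 0)))) (.n 2 (.n 0 (.n 2 (.l 0) (.l 0)) (.n 2 (.l 0) (.l 0))) (.n 2 (.n 0 (.l 0) (.l 0)) (.l 0))))
    [(207877046272, 12026118144), (446676598784, 34359738368), (2748779069440, 2748779069440)] rfl (by decide +kernel)
theorem A5_c0_t71 : CovD 1 gA5 [(207877046272, 12026118144), (446676598784, 34359738368), (8246337208320, 2748779069440)] :=
  covD_E kA5_eq (.n 2 (.n 0 (.n 2 (.l 0) (.l 0)) (.n 2 (.l 0) (.l 0))) (.n 2 (.n 0 (.l 0) (.l 0)) (.l 0)))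
    [(207877046272, 12026118144), (446676598784, 34359738368), (8246337208320, 2748779069440)] rfl (by decide +kernel)
end

mutual
theorem A5_c0_t73 : CovD 1 gA5 [(201863987200, 6013059072), (515396075520, 34359738368), (5497558138880, 5497558138880)] :=
  covD_E kA5_eq (.n 2 (.n 2 (.n 2 (.n 2 (.l 0) (.l 0)) (.n 2 (.l 0) (.l 0))) (.n 2 (.n 2 (.l 0) (.l 0)) (.n 0 (.l 0) (.l 0)))) (.n 2 (.n 2 (.l 0) (.l 0)) (.n 2 (.l 0) (.l 0))))
    [(201863987200, 6013059072), (515396075520, 34359738368), (5497558138880, 5497558138880)] rfl (by decide +kernel)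
theorem A5_c0_t74 : CovD 1 gA5 [(213890105344, 6013059072), (515396075520, 34359738368), (5497558138880, 5497558138880)] :=
  covD_E kA5_eq (.n 2 (.n 2 (.n 2 (.n 2 (.l 0) (.l 0)) (.n 2 (.l 0) (.l 0))) (.n 2 (.n 2 (.l 0) (.l 0)) (.n 1 (.l 0) (.l 0)))) (.n 2 (.n 2 (.l 0) (.l 0)) (.n 2 (.l 0) (.l 0))))
    [(213890105344, 6013059072), (515396075520, 34359738368), (5497558138880, 5497558138880)] rfl (by decide +kernel)
end

theorem A5_c0_t5 : CovD 1 gA5 [(183824809984, 12026118144), (34359738368, 34359738368), (2748779069440, 2748779069440)] :=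
  covD_split 0 (by decide +kernel) A5_c0_t6 A5_c0_t7

theorem A5_c0_t4 : CovD 1 gA5 [(183824809984, 12026118144), (34359738368, 34359738368), (5497558138880, 5497558138880)] :=
  covD_split 2 (by decide +kernel) A5_c0_t5 A5_c0_t8

theorem A5_c0_t10 : CovD 1 gA5 [(183824809984, 12026118144), (103079215104, 34359738368), (2748779069440, 2748779069440)] :=
  covD_split 2 (by decide +kernel) A5_c0_t11 A5_c0_t12

theorem A5_c0_t9 : CovD 1 gA5 [(183824809984, 12026118144), (103079215104, 34359738368), (5497558138880, 5497558138880)] :=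
  covD_split 2 (by decide +kernel) A5_c0_t10 A5_c0_t13

theorem A5_c0_t3 : CovD 1 gA5 [(183824809984, 12026118144), (68719476736, 68719476736), (5497558138880, 5497558138880)] :=
  covD_split 1 (by decide +kernel) A5_c0_t4 A5_c0_t9

theorem A5_c0_t16 : CovD 1 gA5 [(183824809984, 12026118144), (171798691840, 34359738368), (2748779069440, 2748779069440)] :=
  covD_split 2 (by decide +kernel) A5_c0_t17 A5_c0_t18

theorem A5_c0_t15 : CovD 1 gA5 [(183824809984, 12026118144), (171798691840, 34359738368), (5497558138880, 5497558138880)] :=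
  covD_split 2 (by decide +kernel) A5_c0_t16 A5_c0_t19

theorem A5_c0_t20 : CovD 1 gA5 [(183824809984, 12026118144), (240518168576, 34359738368), (5497558138880, 5497558138880)] :=
  covD_split 2 (by decide +kernel) A5_c0_t21 A5_c0_t22

theorem A5_c0_t14 : CovD 1 gA5 [(183824809984, 12026118144), (206158430208, 68719476736), (5497558138880, 5497558138880)] :=
  covD_split 1 (by decide +kernel) A5_c0_t15 A5_c0_t20

theorem A5_c0_t2 : CovD 1 gA5 [(183824809984, 12026118144), (137438953472, 137438953472), (5497558138880, 5497558138880)] :=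
  covD_split 1 (by decide +kernel) A5_c0_t3 A5_c0_t14

theorem A5_c0_t25 : CovD 1 gA5 [(183824809984, 12026118144), (309237645312, 34359738368), (5497558138880, 5497558138880)] :=
  covD_split 2 (by decide +kernel) A5_c0_t26 A5_c0_t27

theorem A5_c0_t28 : CovD 1 gA5 [(183824809984, 12026118144), (377957122048, 34359738368), (5497558138880, 5497558138880)] :=
  covD_split 2 (by decide +kernel) A5_c0_t29 A5_c0_t30

theorem A5_c0_t24 : CovD 1 gA5 [(183824809984, 12026118144), (343597383680, 68719476736), (5497558138880, 5497558138880)] :=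
  covD_split 1 (by decide +kernel) A5_c0_t25 A5_c0_t28

theorem A5_c0_t32 : CovD 1 gA5 [(177811750912, 6013059072), (481036337152, 68719476736), (5497558138880, 5497558138880)] :=
  covD_split 2 (by decide +kernel) A5_c0_t33 A5_c0_t34

theorem A5_c0_t35 : CovD 1 gA5 [(189837869056, 6013059072), (481036337152, 68719476736), (5497558138880, 5497558138880)] :=
  covD_split 2 (by decide +kernel) A5_c0_t36 A5_c0_t37

theorem A5_c0_t31 : CovD 1 gA5 [(183824809984, 12026118144), (481036337152, 68719476736), (5497558138880, 5497558138880)] :=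
  covD_split 0 (by decide +kernel) A5_c0_t32 A5_c0_t35

theorem A5_c0_t23 : CovD 1 gA5 [(183824809984, 12026118144), (412316860416, 137438953472), (5497558138880, 5497558138880)] :=
  covD_split 1 (by decide +kernel) A5_c0_t24 A5_c0_t31

theorem A5_c0_t1 : CovD 1 gA5 [(183824809984, 12026118144), (274877906944, 274877906944), (5497558138880, 5497558138880)] :=
  covD_split 1 (by decide +kernel) A5_c0_t2 A5_c0_t23

theorem A5_c0_t42 : CovD 1 gA5 [(207877046272, 12026118144), (34359738368, 34359738368), (2748779069440, 2748779069440)] :=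
  covD_split 2 (by decide +kernel) A5_c0_t43 A5_c0_t44

theorem A5_c0_t41 : CovD 1 gA5 [(207877046272, 12026118144), (34359738368, 34359738368), (5497558138880, 5497558138880)] :=
  covD_split 2 (by decide +kernel) A5_c0_t42 A5_c0_t45

theorem A5_c0_t47 : CovD 1 gA5 [(207877046272, 12026118144), (103079215104, 34359738368), (2748779069440, 2748779069440)] :=
  covD_split 2 (by decide +kernel) A5_c0_t48 A5_c0_t49

theorem A5_c0_t46 : CovD 1 gA5 [(207877046272, 12026118144), (103079215104, 34359738368), (5497558138880, 5497558138880)] :=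
  covD_split 2 (by decide +kernel) A5_c0_t47 A5_c0_t50

theorem A5_c0_t40 : CovD 1 gA5 [(207877046272, 12026118144), (68719476736, 68719476736), (5497558138880, 5497558138880)] :=
  covD_split 1 (by decide +kernel) A5_c0_t41 A5_c0_t46

theorem A5_c0_t53 : CovD 1 gA5 [(207877046272, 12026118144), (171798691840, 34359738368), (2748779069440, 2748779069440)] :=
  covD_split 2 (by decide +kernel) A5_c0_t54 A5_c0_t55

theorem A5_c0_t52 : CovD 1 gA5 [(207877046272, 12026118144), (171798691840, 34359738368), (5497558138880, 5497558138880)] :=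
  covD_split 2 (by decide +kernel) A5_c0_t53 A5_c0_t56

theorem A5_c0_t57 : CovD 1 gA5 [(207877046272, 12026118144), (240518168576, 34359738368), (5497558138880, 5497558138880)] :=
  covD_split 2 (by decide +kernel) A5_c0_t58 A5_c0_t59

theorem A5_c0_t51 : CovD 1 gA5 [(207877046272, 12026118144), (206158430208, 68719476736), (5497558138880, 5497558138880)] :=
  covD_split 1 (by decide +kernel) A5_c0_t52 A5_c0_t57

theorem A5_c0_t39 : CovD 1 gA5 [(207877046272, 12026118144), (137438953472, 137438953472), (5497558138880, 5497558138880)] :=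
  covD_split 1 (by decide +kernel) A5_c0_t40 A5_c0_t51

theorem A5_c0_t62 : CovD 1 gA5 [(207877046272, 12026118144), (309237645312, 34359738368), (5497558138880, 5497558138880)] :=
  covD_split 2 (by decide +kernel) A5_c0_t63 A5_c0_t64

theorem A5_c0_t65 : CovD 1 gA5 [(207877046272, 12026118144), (377957122048, 34359738368), (5497558138880, 5497558138880)] :=
  covD_split 2 (by decide +kernel) A5_c0_t66 A5_c0_t67

theorem A5_c0_t61 : CovD 1 gA5 [(207877046272, 12026118144), (343597383680, 68719476736), (5497558138880, 5497558138880)] :=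
  covD_split 1 (by decide +kernel) A5_c0_t62 A5_c0_t65

theorem A5_c0_t69 : CovD 1 gA5 [(207877046272, 12026118144), (446676598784, 34359738368), (5497558138880, 5497558138880)] :=
  covD_split 2 (by decide +kernel) A5_c0_t70 A5_c0_t71

theorem A5_c0_t72 : CovD 1 gA5 [(207877046272, 12026118144), (515396075520, 34359738368), (5497558138880, 5497558138880)] :=
  covD_split 0 (by decide +kernel) A5_c0_t73 A5_c0_t74

theorem A5_c0_t68 : CovD 1 gA5 [(207877046272, 12026118144), (481036337152, 68719476736), (5497558138880, 5497558138880)] :=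
  covD_split 1 (by decide +kernel) A5_c0_t69 A5_c0_t72

theorem A5_c0_t60 : CovD 1 gA5 [(207877046272, 12026118144), (412316860416, 137438953472), (5497558138880, 5497558138880)] :=
  covD_split 1 (by decide +kernel) A5_c0_t61 A5_c0_t68

theorem A5_c0_t38 : CovD 1 gA5 [(207877046272, 12026118144), (274877906944, 274877906944), (5497558138880, 5497558138880)] :=
  covD_split 1 (by decide +kernel) A5_c0_t39 A5_c0_t60

theorem A5_c0 : CovD 1 gA5 [(195850928128, 24052236288), (274877906944, 274877906944), (5497558138880, 5497558138880)] :=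
  covD_split 0 (by decide +kernel) A5_c0_t1 A5_c0_t38

end Pool.Agent.helper14.NR.E5d
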