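import Pool.Agent.helper14.NR.E5d.PN5

/-!
Generated: certificates.
-/

namespace Pool.Agent.helper14.NR.E5d

open Pool.Agent.helper31.IA (Z)
open Pool.Agent.helper31.IX (Op XOps runX Cov CovD cov_split covD_split)
open Pool.Agent.helper31.IC (TD)
open Pool.Agent.helper63.RG (reloc)
open Pool.Agent.helper63.NF hiding TD
open Pool.Agent.helper14.CF (xE covD_E)
open Pool.Agent.helper14.NR (share)

mutual
theorem A5_c1_t5 : CovD 1 gA5 [(177811750912, 6013059072), (618475290624, 68719476736), (2748779069440, 2748779069440)] :=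
  covD_E kA5_eq (.n 2 (.n 1 (.n 2 (.n 2 (.l 0) (.l 0)) (.n 2 (.l 0) (.l 0))) (.n 2 (.n 2 (.l 0) (.l 0)) (.n 2 (.l 0) (.l 0)))) (.n 2 (.n 0 (.n 2 (.l 0) (.l 0)) (.n 2 (.l 0) (.l 0))) (.n 2 (.l 0) (.l 0))))
    [(177811750912, 6013059072), (618475290624, 68719476736), (2748779069440, 2748779069440)] rfl (by decide +kernel)
theorem A5_c1_t6 : CovD 1 gA5 [(177811750912, 6013059072), (618475290624, 68719476736), (8246337208320, 2748779069440)] :=
  covD_E kA5_eq (.n 1 (.n 2 (.n 2 (.l 0) (.l 0)) (.n 2 (.l 0) (.l 0))) (.n 2 (.n 2 (.l 0) (.l 0)) (.n 2 (.l 0) (.l 0))))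
    [(177811750912, 6013059072), (618475290624, 68719476736), (8246337208320, 2748779069440)] rfl (by decide +kernel)
end

mutual
theorem A5_c1_t8 : CovD 1 gA5 [(177811750912, 6013059072), (755914244096, 68719476736), (2748779069440, 2748779069440)] :=
  covD_E kA5_eq (.n 2 (.n 0 (.n 2 (.n 2 (.l 0) (.l 0)) (.n 2 (.l 0) (.l 0))) (.n 2 (.n 2 (.l 0) (.l 0)) (.n 2 (.l 0) (.l 0)))) (.n 2 (.n 0 (.n 2 (.l 0) (.l 0)) (.n 2 (.l 0) (.l 0))) (.n 2 (.n 0 (.l 0) (.l 0)) (.l 0))))
    [(177811750912, 6013059072), (755914244096, 68719476736), (2748779069440, 2748779069440)] rfl (by decide +kernel)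
theorem A5_c1_t9 : CovD 1 gA5 [(177811750912, 6013059072), (755914244096, 68719476736), (8246337208320, 2748779069440)] :=
  covD_E kA5_eq (.n 1 (.n 2 (.n 2 (.l 0) (.l 0)) (.n 2 (.l 0) (.l 0))) (.n 2 (.n 2 (.l 0) (.l 0)) (.n 2 (.l 0) (.l 0))))
    [(177811750912, 6013059072), (755914244096, 68719476736), (8246337208320, 2748779069440)] rfl (by decide +kernel)
end

mutual
theorem A5_c1_t12 : CovD 1 gA5 [(177811750912, 6013059072), (893353197568, 68719476736), (2748779069440, 2748779069440)] :=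
  covD_E kA5_eq (.n 2 (.n 0 (.n 2 (.n 2 (.l 0) (.l 0)) (.n 2 (.l 0) (.l 0))) (.n 2 (.n 2 (.l 0) (.l 0)) (.n 2 (.l 0) (.l 0)))) (.n 2 (.n 0 (.n 2 (.l 0) (.l 0)) (.n 2 (.l 0) (.l 0))) (.n 2 (.n 0 (.l 0) (.l 0)) (.l 0))))
    [(177811750912, 6013059072), (893353197568, 68719476736), (2748779069440, 2748779069440)] rfl (by decide +kernel)
theorem A5_c1_t13 : CovD 1 gA5 [(177811750912, 6013059072), (893353197568, 68719476736), (8246337208320, 2748779069440)] :=
  covD_E kA5_eq (.n 1 (.n 2 (.n 2 (.l 0) (.l 0)) (.n 2 (.l 0) (.l 0))) (.n 2 (.n 2 (.l 0) (.l 0)) (.n 2 (.l 0) (.l 0))))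
    [(177811750912, 6013059072), (893353197568, 68719476736), (8246337208320, 2748779069440)] rfl (by decide +kernel)
end

mutual
theorem A5_c1_t15 : CovD 1 gA5 [(177811750912, 6013059072), (1030792151040, 68719476736), (2748779069440, 2748779069440)] :=
  covD_E kA5_eq (.n 0 (.n 2 (.n 2 (.n 2 (.l 0) (.l 0)) (.n 2 (.l 0) (.l 0))) (.n 2 (.n 2 (.l 0) (.l 0)) (.n 1 (.l 0) (.l 0)))) (.n 2 (.n 2 (.n 2 (.l 0) (.l 0)) (.n 2 (.l 0) (.l 0))) (.n 2 (.n 2 (.l 0) (.l 0)) (.n 1 (.l 0) (.l 0)))))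
    [(177811750912, 6013059072), (1030792151040, 68719476736), (2748779069440, 2748779069440)] rfl (by decide +kernel)
theorem A5_c1_t16 : CovD 1 gA5 [(177811750912, 6013059072), (1030792151040, 68719476736), (8246337208320, 2748779069440)] :=
  covD_E kA5_eq (.n 2 (.n 2 (.n 2 (.n 0 (.l 0) (.l 0)) (.l 0)) (.n 1 (.l 0) (.l 0))) (.n 0 (.n 2 (.l 0) (.l 0)) (.n 2 (.l 0) (.l 0))))
    [(177811750912, 6013059072), (1030792151040, 68719476736), (8246337208320, 2748779069440)] rfl (by decide +kernel)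
end

mutual
theorem A5_c1_t20 : CovD 1 gA5 [(189837869056, 6013059072), (618475290624, 68719476736), (2748779069440, 2748779069440)] :=
  covD_E kA5_eq (.n 2 (.n 1 (.n 2 (.n 2 (.l 0) (.l 0)) (.n 2 (.l 0) (.l 0))) (.n 2 (.n 2 (.l 0) (.l 0)) (.n 2 (.l 0) (.l 0)))) (.n 2 (.n 0 (.n 2 (.l 0) (.l 0)) (.n 2 (.l 0) (.l 0))) (.n 2 (.n 0 (.l 0) (.l 0)) (.l 0))))
    [(189837869056, 6013059072), (618475290624, 68719476736), (2748779069440, 2748779069440)] rfl (by decide +kernel)
theorem A5_c1_t21 : CovD 1 gA5 [(189837869056, 6013059072), (618475290624, 68719476736), (8246337208320, 2748779069440)] :=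
  covD_E kA5_eq (.n 1 (.n 2 (.n 2 (.l 0) (.l 0)) (.n 2 (.l 0) (.l 0))) (.n 2 (.n 2 (.l 0) (.l 0)) (.n 2 (.l 0) (.l 0))))
    [(189837869056, 6013059072), (618475290624, 68719476736), (8246337208320, 2748779069440)] rfl (by decide +kernel)
end

mutual
theorem A5_c1_t23 : CovD 1 gA5 [(189837869056, 6013059072), (721554505728, 34359738368), (5497558138880, 5497558138880)] :=
  covD_E kA5_eq (.n 2 (.n 2 (.n 2 (.n 2 (.l 0) (.l 0)) (.n 2 (.l 0) (.l 0))) (.n 2 (.n 2 (.l 0) (.l 0)) (.n 0 (.l 0) (.l 0)))) (.n 2 (.n 2 (.l 0) (.l 0)) (.n 2 (.l 0) (.l 0))))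
    [(189837869056, 6013059072), (721554505728, 34359738368), (5497558138880, 5497558138880)] rfl (by decide +kernel)
theorem A5_c1_t24 : CovD 1 gA5 [(189837869056, 6013059072), (790273982464, 34359738368), (5497558138880, 5497558138880)] :=
  covD_E kA5_eq (.n 2 (.n 2 (.n 2 (.n 2 (.l 0) (.l 0)) (.n 2 (.l 0) (.l 0))) (.n 2 (.n 2 (.l 0) (.l 0)) (.n 0 (.l 0) (.l 0)))) (.n 2 (.n 2 (.l 0) (.l 0)) (.n 2 (.l 0) (.l 0))))
    [(189837869056, 6013059072), (790273982464, 34359738368), (5497558138880, 5497558138880)] rfl (by decide +kernel)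
end

mutual
theorem A5_c1_t27 : CovD 1 gA5 [(189837869056, 6013059072), (893353197568, 68719476736), (2748779069440, 2748779069440)] :=
  covD_E kA5_eq (.n 1 (.n 2 (.n 2 (.n 2 (.l 0) (.l 0)) (.n 2 (.l 0) (.l 0))) (.n 2 (.n 2 (.l 0) (.l 0)) (.n 0 (.l 0) (.l 0)))) (.n 2 (.n 2 (.n 2 (.l 0) (.l 0)) (.n 2 (.l 0) (.l 0))) (.n 2 (.n 2 (.l 0) (.l 0)) (.n 1 (.l 0) (.l 0)))))
    [(189837869056, 6013059072), (893353197568, 68719476736), (2748779069440, 2748779069440)] rfl (by decide +kernel)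
theorem A5_c1_t28 : CovD 1 gA5 [(189837869056, 6013059072), (893353197568, 68719476736), (8246337208320, 2748779069440)] :=
  covD_E kA5_eq (.n 2 (.n 2 (.n 2 (.n 0 (.l 0) (.l 0)) (.l 0)) (.n 1 (.l 0) (.l 0))) (.n 1 (.n 2 (.l 0) (.l 0)) (.n 2 (.l 0) (.l 0))))
    [(189837869056, 6013059072), (893353197568, 68719476736), (8246337208320, 2748779069440)] rfl (by decide +kernel)
end

mutual
theorem A5_c1_t30 : CovD 1 gA5 [(189837869056, 6013059072), (996432412672, 34359738368), (5497558138880, 5497558138880)] :=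
  covD_E kA5_eq (.n 2 (.n 2 (.n 2 (.n 2 (.l 0) (.l 0)) (.n 2 (.l 0) (.l 0))) (.n 2 (.n 2 (.l 0) (.l 0)) (.n 2 (.l 0) (.l 0)))) (.n 2 (.n 2 (.n 0 (.l 0) (.l 0)) (.l 0)) (.n 2 (.l 0) (.l 0))))
    [(189837869056, 6013059072), (996432412672, 34359738368), (5497558138880, 5497558138880)] rfl (by decide +kernel)
theorem A5_c1_t31 : CovD 1 gA5 [(189837869056, 6013059072), (1065151889408, 34359738368), (5497558138880, 5497558138880)] :=
  covD_E kA5_eq (.n 2 (.n 2 (.n 2 (.n 2 (.l 0) (.l 0)) (.n 2 (.l 0) (.l 0))) (.n 2 (.n 2 (.l 0) (.l 0)) (.n 2 (.l 0) (.l 0)))) (.n 2 (.n 2 (.n 0 (.l 0) (.l 0)) (.l 0)) (.n 2 (.l 0) (.l 0))))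
    [(189837869056, 6013059072), (1065151889408, 34359738368), (5497558138880, 5497558138880)] rfl (by decide +kernel)
end

mutual
theorem A5_c1_t36 : CovD 1 gA5 [(201863987200, 6013059072), (584115552256, 34359738368), (5497558138880, 5497558138880)] :=
  covD_E kA5_eq (.n 2 (.n 2 (.n 2 (.n 2 (.l 0) (.l 0)) (.n 2 (.l 0) (.l 0))) (.n 2 (.n 2 (.l 0) (.l 0)) (.n 0 (.l 0) (.l 0)))) (.n 2 (.n 2 (.l 0) (.l 0)) (.n 2 (.l 0) (.l 0))))
    [(201863987200, 6013059072), (584115552256, 34359738368), (5497558138880, 5497558138880)] rfl (by decide +kernel)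
theorem A5_c1_t37 : CovD 1 gA5 [(201863987200, 6013059072), (652835028992, 34359738368), (5497558138880, 5497558138880)] :=
  covD_E kA5_eq (.n 2 (.n 2 (.n 2 (.n 2 (.l 0) (.l 0)) (.n 2 (.l 0) (.l 0))) (.n 2 (.n 2 (.l 0) (.l 0)) (.n 0 (.l 0) (.l 0)))) (.n 2 (.n 2 (.l 0) (.l 0)) (.n 2 (.l 0) (.l 0))))
    [(201863987200, 6013059072), (652835028992, 34359738368), (5497558138880, 5497558138880)] rfl (by decide +kernel)
end

mutual
theorem A5_c1_t39 : CovD 1 gA5 [(201863987200, 6013059072), (721554505728, 34359738368), (5497558138880, 5497558138880)] :=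
  covD_E kA5_eq (.n 2 (.n 2 (.n 2 (.n 2 (.l 0) (.l 0)) (.n 2 (.l 0) (.l 0))) (.n 2 (.n 2 (.l 0) (.l 0)) (.n 1 (.l 0) (.l 0)))) (.n 2 (.n 2 (.l 0) (.l 0)) (.n 2 (.l 0) (.l 0))))
    [(201863987200, 6013059072), (721554505728, 34359738368), (5497558138880, 5497558138880)] rfl (by decide +kernel)
theorem A5_c1_t40 : CovD 1 gA5 [(201863987200, 6013059072), (790273982464, 34359738368), (5497558138880, 5497558138880)] :=
  covD_E kA5_eq (.n 2 (.n 2 (.n 2 (.n 2 (.l 0) (.l 0)) (.n 2 (.l 0) (.l 0))) (.n 2 (.n 2 (.l 0) (.l 0)) (.n 2 (.l 0) (.l 0)))) (.n 2 (.n 2 (.n 0 (.l 0) (.l 0)) (.l 0)) (.n 2 (.l 0) (.l 0))))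
    [(201863987200, 6013059072), (790273982464, 34359738368), (5497558138880, 5497558138880)] rfl (by decide +kernel)
end

mutual
theorem A5_c1_t43 : CovD 1 gA5 [(201863987200, 6013059072), (858993459200, 34359738368), (5497558138880, 5497558138880)] :=
  covD_E kA5_eq (.n 2 (.n 2 (.n 2 (.n 2 (.l 0) (.l 0)) (.n 2 (.l 0) (.l 0))) (.n 2 (.n 2 (.l 0) (.l 0)) (.n 2 (.l 0) (.l 0)))) (.n 2 (.n 2 (.n 0 (.l 0) (.l 0)) (.l 0)) (.n 2 (.l 0) (.l 0))))
    [(201863987200, 6013059072), (858993459200, 34359738368), (5497558138880, 5497558138880)] rfl (by decide +kernel)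
theorem A5_c1_t44 : CovD 1 gA5 [(201863987200, 6013059072), (927712935936, 34359738368), (5497558138880, 5497558138880)] :=
  covD_E kA5_eq (.n 2 (.n 2 (.n 2 (.n 2 (.l 0) (.l 0)) (.n 2 (.l 0) (.l 0))) (.n 2 (.n 2 (.l 0) (.l 0)) (.n 2 (.l 0) (.l 0)))) (.n 2 (.n 2 (.n 0 (.l 0) (.l 0)) (.l 0)) (.n 2 (.l 0) (.l 0))))
    [(201863987200, 6013059072), (927712935936, 34359738368), (5497558138880, 5497558138880)] rfl (by decide +kernel)
end

mutual
theorem A5_c1_t46 : CovD 1 gA5 [(201863987200, 6013059072), (996432412672, 34359738368), (5497558138880, 5497558138880)] :=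
  covD_E kA5_eq (.n 2 (.n 2 (.n 2 (.n 2 (.l 0) (.l 0)) (.n 2 (.l 0) (.l 0))) (.n 2 (.n 2 (.l 0) (.l 0)) (.n 2 (.l 0) (.l 0)))) (.n 2 (.n 2 (.n 0 (.l 0) (.l 0)) (.l 0)) (.n 2 (.l 0) (.l 0))))
    [(201863987200, 6013059072), (996432412672, 34359738368), (5497558138880, 5497558138880)] rfl (by decide +kernel)
theorem A5_c1_t47 : CovD 1 gA5 [(201863987200, 6013059072), (1065151889408, 34359738368), (5497558138880, 5497558138880)] :=
  covD_E kA5_eq (.n 2 (.n 2 (.n 2 (.n 2 (.l 0) (.l 0)) (.n 2 (.l 0) (.l 0))) (.n 2 (.n 2 (.l 0) (.l 0)) (.n 2 (.l 0) (.l 0)))) (.n 2 (.n 0 (.n 2 (.l 0) (.l 0)) (.n 2 (.l 0) (.l 0))) (.n 2 (.l 0) (.l 0))))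
    [(201863987200, 6013059072), (1065151889408, 34359738368), (5497558138880, 5497558138880)] rfl (by decide +kernel)
end

mutual
theorem A5_c1_t51 : CovD 1 gA5 [(213890105344, 6013059072), (584115552256, 34359738368), (5497558138880, 5497558138880)] :=
  covD_E kA5_eq (.n 2 (.n 2 (.n 2 (.n 2 (.l 0) (.l 0)) (.n 2 (.l 0) (.l 0))) (.n 2 (.n 2 (.l 0) (.l 0)) (.n 1 (.l 0) (.l 0)))) (.n 2 (.n 2 (.l 0) (.l 0)) (.n 2 (.l 0) (.l 0))))
    [(213890105344, 6013059072), (584115552256, 34359738368), (5497558138880, 5497558138880)] rfl (by decide +kernel)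
theorem A5_c1_t52 : CovD 1 gA5 [(213890105344, 6013059072), (652835028992, 34359738368), (5497558138880, 5497558138880)] :=
  covD_E kA5_eq (.n 2 (.n 2 (.n 2 (.n 2 (.l 0) (.l 0)) (.n 2 (.l 0) (.l 0))) (.n 2 (.n 2 (.l 0) (.l 0)) (.n 1 (.l 0) (.l 0)))) (.n 2 (.n 2 (.l 0) (.l 0)) (.n 2 (.l 0) (.l 0))))
    [(213890105344, 6013059072), (652835028992, 34359738368), (5497558138880, 5497558138880)] rfl (by decide +kernel)
end

mutual
theorem A5_c1_t54 : CovD 1 gA5 [(213890105344, 6013059072), (721554505728, 34359738368), (5497558138880, 5497558138880)] :=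
  covD_E kA5_eq (.n 2 (.n 2 (.n 2 (.n 2 (.l 0) (.l 0)) (.n 2 (.l 0) (.l 0))) (.n 2 (.n 2 (.l 0) (.l 0)) (.n 2 (.l 0) (.l 0)))) (.n 2 (.n 2 (.n 0 (.l 0) (.l 0)) (.l 0)) (.n 2 (.l 0) (.l 0))))
    [(213890105344, 6013059072), (721554505728, 34359738368), (5497558138880, 5497558138880)] rfl (by decide +kernel)
theorem A5_c1_t55 : CovD 1 gA5 [(213890105344, 6013059072), (790273982464, 34359738368), (5497558138880, 5497558138880)] :=
  covD_E kA5_eq (.n 2 (.n 2 (.n 2 (.n 2 (.l 0) (.l 0)) (.n 2 (.l 0) (.l 0))) (.n 2 (.n 2 (.l 0) (.l 0)) (.n 2 (.l 0) (.l 0)))) (.n 2 (.n 2 (.n 0 (.l 0) (.l 0)) (.l 0)) (.n 2 (.l 0) (.l 0))))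
    [(213890105344, 6013059072), (790273982464, 34359738368), (5497558138880, 5497558138880)] rfl (by decide +kernel)
end

mutual
theorem A5_c1_t58 : CovD 1 gA5 [(213890105344, 6013059072), (858993459200, 34359738368), (5497558138880, 5497558138880)] :=
  covD_E kA5_eq (.n 2 (.n 2 (.n 2 (.n 2 (.l 0) (.l 0)) (.n 2 (.l 0) (.l 0))) (.n 2 (.n 2 (.l 0) (.l 0)) (.n 2 (.l 0) (.l 0)))) (.n 2 (.n 2 (.n 0 (.l 0) (.l 0)) (.l 0)) (.n 2 (.l 0) (.l 0))))
    [(213890105344, 6013059072), (858993459200, 34359738368), (5497558138880, 5497558138880)] rfl (by decide +kernel)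
theorem A5_c1_t59 : CovD 1 gA5 [(213890105344, 6013059072), (927712935936, 34359738368), (5497558138880, 5497558138880)] :=
  covD_E kA5_eq (.n 2 (.n 2 (.n 2 (.n 2 (.l 0) (.l 0)) (.n 2 (.l 0) (.l 0))) (.n 2 (.n 2 (.l 0) (.l 0)) (.n 2 (.l 0) (.l 0)))) (.n 2 (.n 2 (.n 0 (.l 0) (.l 0)) (.l 0)) (.n 2 (.l 0) (.l 0))))
    [(213890105344, 6013059072), (927712935936, 34359738368), (5497558138880, 5497558138880)] rfl (by decide +kernel)
end

mutual
theorem A5_c1_t61 : CovD 1 gA5 [(213890105344, 6013059072), (996432412672, 34359738368), (5497558138880, 5497558138880)] :=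
  covD_E kA5_eq (.n 2 (.n 2 (.n 2 (.n 2 (.l 0) (.l 0)) (.n 2 (.l 0) (.l 0))) (.n 2 (.n 2 (.l 0) (.l 0)) (.n 2 (.l 0) (.l 0)))) (.n 2 (.n 0 (.n 2 (.l 0) (.l 0)) (.n 2 (.l 0) (.l 0))) (.n 2 (.l 0) (.l 0))))
    [(213890105344, 6013059072), (996432412672, 34359738368), (5497558138880, 5497558138880)] rfl (by decide +kernel)
theorem A5_c1_t62 : CovD 1 gA5 [(213890105344, 6013059072), (1065151889408, 34359738368), (5497558138880, 5497558138880)] :=
  covD_E kA5_eq (.n 2 (.n 2 (.n 2 (.n 2 (.l 0) (.l 0)) (.n 2 (.l 0) (.l 0))) (.n 2 (.n 2 (.l 0) (.l 0)) (.n 2 (.l 0) (.l 0)))) (.n 2 (.n 1 (.n 2 (.l 0) (.l 0)) (.n 2 (.l 0) (.l 0))) (.n 2 (.l 0) (.l 0))))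
    [(213890105344, 6013059072), (1065151889408, 34359738368), (5497558138880, 5497558138880)] rfl (by decide +kernel)
end

mutual
theorem B5_c0_t3 : CovD 1 gB5 [(177811750912, 6013059072), (274877906944, 274877906944), (54975791104, 54975791104)] :=
  covD_E kB5_eq (.n 1 (.n 1 (.n 2 (.l 0) (.l 0)) (.n 1 (.l 0) (.l 0))) (.n 1 (.n 2 (.l 0) (.l 0)) (.n 2 (.l 0) (.n 0 (.l 0) (.l 0)))))
    [(177811750912, 6013059072), (274877906944, 274877906944), (54975791104, 54975791104)] rfl (by decide +kernel)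
theorem B5_c0_t4 : CovD 1 gB5 [(177811750912, 6013059072), (824633720832, 274877906944), (54975791104, 54975791104)] :=
  covD_E kB5_eq (.n 1 (.n 0 (.n 1 (.n 2 (.l 0) (.l 0)) (.n 2 (.l 0) (.l 0))) (.n 1 (.n 2 (.l 0) (.l 0)) (.n 2 (.l 0) (.l 0)))) (.n 1 (.n 1 (.n 2 (.l 0) (.l 0)) (.n 2 (.l 0) (.l 0))) (.n 2 (.n 2 (.l 0) (.l 0)) (.n 2 (.l 0) (.l 0)))))
    [(177811750912, 6013059072), (824633720832, 274877906944), (54975791104, 54975791104)] rfl (by decide +kernel)
end

mutual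
theorem B5_c0_t6 : CovD 1 gB5 [(189837869056, 6013059072), (274877906944, 274877906944), (54975791104, 54975791104)] :=
  covD_E kB5_eq (.n 1 (.n 1 (.n 1 (.l 0) (.l 0)) (.n 1 (.l 0) (.l 0))) (.n 1 (.n 2 (.l 0) (.l 0)) (.n 2 (.l 0) (.n 0 (.l 0) (.l 0)))))
    [(189837869056, 6013059072), (274877906944, 274877906944), (54975791104, 54975791104)] rfl (by decide +kernel)
theorem B5_c0_t7 : CovD 1 gB5 [(189837869056, 6013059072), (824633720832, 274877906944), (54975791104, 54975791104)] :=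
  covD_E kB5_eq (.n 1 (.n 0 (.n 1 (.n 2 (.l 0) (.l 0)) (.n 2 (.l 0) (.l 0))) (.n 1 (.n 2 (.l 0) (.l 0)) (.n 2 (.l 0) (.l 0)))) (.n 1 (.n 1 (.n 2 (.l 0) (.l 0)) (.n 2 (.l 0) (.l 0))) (.n 2 (.n 2 (.l 0) (.l 0)) (.n 2 (.l 0) (.l 0)))))
    [(189837869056, 6013059072), (824633720832, 274877906944), (54975791104, 54975791104)] rfl (by decide +kernel)
end

mutual
theorem B5_c0_t10 : CovD 1 gB5 [(207877046272, 12026118144), (137438953472, 137438953472), (54975791104, 54975791104)] :=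
  covD_E kB5_eq (.n 0 (.n 1 (.n 1 (.l 0) (.l 0)) (.n 1 (.l 0) (.l 0))) (.n 1 (.n 1 (.l 0) (.l 0)) (.n 1 (.l 0) (.l 0))))
    [(207877046272, 12026118144), (137438953472, 137438953472), (54975791104, 54975791104)] rfl (by decide +kernel)
theorem B5_c0_t11 : CovD 1 gB5 [(207877046272, 12026118144), (412316860416, 137438953472), (54975791104, 54975791104)] :=
  covD_E kB5_eq (.n 1 (.n 0 (.n 2 (.l 0) (.l 0)) (.n 2 (.l 0) (.l 0))) (.n 1 (.n 2 (.l 0) (.l 0)) (.n 2 (.l 0) (.n 0 (.l 0) (.l 0)))))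
    [(207877046272, 12026118144), (412316860416, 137438953472), (54975791104, 54975791104)] rfl (by decide +kernel)
end

mutual
theorem B5_c0_t14 : CovD 1 gB5 [(201863987200, 6013059072), (687194767360, 137438953472), (54975791104, 54975791104)] :=
  covD_E kB5_eq (.n 0 (.n 1 (.n 2 (.l 0) (.l 0)) (.n 2 (.l 0) (.l 0))) (.n 1 (.n 2 (.l 0) (.l 0)) (.n 2 (.l 0) (.l 0))))
    [(201863987200, 6013059072), (687194767360, 137438953472), (54975791104, 54975791104)] rfl (by decide +kernel)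
theorem B5_c0_t15 : CovD 1 gB5 [(201863987200, 6013059072), (962072674304, 137438953472), (54975791104, 54975791104)] :=
  covD_E kB5_eq (.n 1 (.n 1 (.n 2 (.l 0) (.l 0)) (.n 2 (.l 0) (.l 0))) (.n 2 (.n 2 (.l 0) (.l 0)) (.n 0 (.n 1 (.l 0) (.l 0)) (.n 1 (.l 0) (.l 0)))))
    [(201863987200, 6013059072), (962072674304, 137438953472), (54975791104, 54975791104)] rfl (by decide +kernel)
end

mutual
theorem B5_c0_t17 : CovD 1 gB5 [(213890105344, 6013059072), (687194767360, 137438953472), (54975791104, 54975791104)] :=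
  covD_E kB5_eq (.n 1 (.n 0 (.n 2 (.l 0) (.l 0)) (.n 2 (.l 0) (.l 0))) (.n 1 (.n 2 (.l 0) (.l 0)) (.n 2 (.l 0) (.l 0))))
    [(213890105344, 6013059072), (687194767360, 137438953472), (54975791104, 54975791104)] rfl (by decide +kernel)
theorem B5_c0_t18 : CovD 1 gB5 [(213890105344, 6013059072), (962072674304, 137438953472), (54975791104, 54975791104)] :=
  covD_E kB5_eq (.n 1 (.n 1 (.n 2 (.l 0) (.l 0)) (.n 2 (.l 0) (.l 0))) (.n 2 (.n 2 (.l 0) (.n 0 (.l 0) (.l 0))) (.n 0 (.n 1 (.l 0) (.l 0)) (.n 1 (.l 0) (.l 0)))))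
    [(213890105344, 6013059072), (962072674304, 137438953472), (54975791104, 54975791104)] rfl (by decide +kernel)
end

mutual
theorem D5_c0_t4 : CovD 1 gD5 [(183824809984, 12026118144), (68719476736, 68719476736), (863554764800, 863554764800)] :=
  covD_E kD5_eq (.n 1 (.n 2 (.n 2 (.n 1 (.l 0) (.l 0)) (.n 2 (.l 0) (.l 0))) (.n 2 (.n 2 (.l 0) (.l 1)) (.l 1))) (.n 2 (.n 2 (.n 0 (.l 0) (.l 1)) (.n 2 (.l 0) (.l 0))) (.n 2 (.l 1) (.l 1))))
    [(183824809984, 12026118144), (68719476736, 68719476736), (863554764800, 863554764800)] rfl (by decide +kernel)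
theorem D5_c0_t5 : CovD 1 gD5 [(207877046272, 12026118144), (68719476736, 68719476736), (863554764800, 863554764800)] :=
  covD_E kD5_eq (.n 2 (.n 2 (.l 1) (.l 1)) (.n 2 (.l 1) (.l 1)))
    [(207877046272, 12026118144), (68719476736, 68719476736), (863554764800, 863554764800)] rfl (by decide +kernel)
end

mutual
theorem D5_c0_t6 : CovD 1 gD5 [(195850928128, 24052236288), (206158430208, 68719476736), (863554764800, 863554764800)] :=
  covD_E kD5_eq (.n 2 (.n 0 (.n 2 (.l 1) (.l 1)) (.n 2 (.l 1) (.l 1))) (.n 2 (.n 0 (.l 1) (.l 1)) (.l 1)))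
    [(195850928128, 24052236288), (206158430208, 68719476736), (863554764800, 863554764800)] rfl (by decide +kernel)
theorem D5_c0_t7 : CovD 1 gD5 [(195850928128, 24052236288), (412316860416, 137438953472), (863554764800, 863554764800)] :=
  covD_E kD5_eq (.n 0 (.n 2 (.n 2 (.l 1) (.l 1)) (.n 2 (.l 1) (.l 1))) (.n 2 (.n 2 (.l 1) (.l 1)) (.n 2 (.l 1) (.l 1))))
    [(195850928128, 24052236288), (412316860416, 137438953472), (863554764800, 863554764800)] rfl (by decide +kernel)
end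

mutual
theorem D5_c0_t8 : CovD 1 gD5 [(195850928128, 24052236288), (824633720832, 274877906944), (863554764800, 863554764800)] :=
  covD_E kD5_eq (.n 1 (.n 2 (.n 2 (.l 1) (.n 0 (.l 1) (.l 1))) (.n 0 (.n 2 (.l 1) (.l 1)) (.n 2 (.l 1) (.l 1)))) (.n 2 (.n 2 (.l 1) (.l 1)) (.n 2 (.l 1) (.l 1))))
    [(195850928128, 24052236288), (824633720832, 274877906944), (863554764800, 863554764800)] rfl (by decide +kernel)
theorem E5_c0_t3 : CovD 1 gE5 [(195850928128, 24052236288), (68719476736, 68719476736), (863554764800, 863554764800)] :=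
  covD_E kE5_eq (.n 2 (.n 2 (.n 2 (.n 2 (.l 1) (.l 1)) (.n 1 (.l 1) (.l 1))) (.n 2 (.l 1) (.l 1))) (.n 0 (.n 2 (.l 1) (.l 1)) (.n 2 (.l 1) (.l 1))))
    [(195850928128, 24052236288), (68719476736, 68719476736), (863554764800, 863554764800)] rfl (by decide +kernel)
end

mutual
theorem E5_c0_t4 : CovD 1 gE5 [(195850928128, 24052236288), (206158430208, 68719476736), (863554764800, 863554764800)] :=
  covD_E kE5_eq (.n 2 (.n 2 (.n 2 (.l 2) (.n 1 (.l 1) (.l 2))) (.n 2 (.l 1) (.l 1))) (.n 2 (.n 0 (.l 1) (.l 1)) (.l 1)))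
    [(195850928128, 24052236288), (206158430208, 68719476736), (863554764800, 863554764800)] rfl (by decide +kernel)
theorem E5_c0_t5 : CovD 1 gE5 [(195850928128, 24052236288), (412316860416, 137438953472), (863554764800, 863554764800)] :=
  covD_E kE5_eq (.n 2 (.n 1 (.n 2 (.n 0 (.l 2) (.l 2)) (.n 2 (.l 1) (.l 1))) (.n 2 (.l 2) (.n 2 (.l 1) (.l 1)))) (.n 2 (.n 2 (.n 0 (.l 1) (.l 1)) (.l 1)) (.n 1 (.l 1) (.l 1))))
    [(195850928128, 24052236288), (412316860416, 137438953472), (863554764800, 863554764800)] rfl (by decide +kernel)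
end

mutual
theorem E5_c0_t7 : CovD 1 gE5 [(195850928128, 24052236288), (687194767360, 137438953472), (863554764800, 863554764800)] :=
  covD_E kE5_eq (.n 2 (.n 2 (.l 2) (.n 0 (.n 2 (.l 2) (.l 1)) (.n 2 (.l 2) (.l 1)))) (.n 2 (.n 2 (.l 1) (.l 1)) (.n 1 (.l 1) (.l 1))))
    [(195850928128, 24052236288), (687194767360, 137438953472), (863554764800, 863554764800)] rfl (by decide +kernel)
theorem E5_c0_t8 : CovD 1 gE5 [(195850928128, 24052236288), (962072674304, 137438953472), (863554764800, 863554764800)] :=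
  covD_E kE5_eq (.n 2 (.n 2 (.l 2) (.n 1 (.n 2 (.l 1) (.l 1)) (.l 2))) (.n 2 (.n 2 (.l 1) (.l 1)) (.n 1 (.l 1) (.l 1))))
    [(195850928128, 24052236288), (962072674304, 137438953472), (863554764800, 863554764800)] rfl (by decide +kernel)
end

theorem A5_c1_t4 : CovD 1 gA5 [(177811750912, 6013059072), (618475290624, 68719476736), (5497558138880, 5497558138880)] :=
  covD_split 2 (by decide +kernel) A5_c1_t5 A5_c1_t6

theorem A5_c1_t7 : CovD 1 gA5 [(177811750912, 6013059072), (755914244096, 68719476736), (5497558138880, 5497558138880)] :=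
  covD_split 2 (by decide +kernel) A5_c1_t8 A5_c1_t9

theorem A5_c1_t3 : CovD 1 gA5 [(177811750912, 6013059072), (687194767360, 137438953472), (5497558138880, 5497558138880)] :=
  covD_split 1 (by decide +kernel) A5_c1_t4 A5_c1_t7

theorem A5_c1_t11 : CovD 1 gA5 [(177811750912, 6013059072), (893353197568, 68719476736), (5497558138880, 5497558138880)] :=
  covD_split 2 (by decide +kernel) A5_c1_t12 A5_c1_t13

theorem A5_c1_t14 : CovD 1 gA5 [(177811750912, 6013059072), (1030792151040, 68719476736), (5497558138880, 5497558138880)] :=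
  covD_split 2 (by decide +kernel) A5_c1_t15 A5_c1_t16

theorem A5_c1_t10 : CovD 1 gA5 [(177811750912, 6013059072), (962072674304, 137438953472), (5497558138880, 5497558138880)] :=
  covD_split 1 (by decide +kernel) A5_c1_t11 A5_c1_t14

theorem A5_c1_t2 : CovD 1 gA5 [(177811750912, 6013059072), (824633720832, 274877906944), (5497558138880, 5497558138880)] :=
  covD_split 1 (by decide +kernel) A5_c1_t3 A5_c1_t10

theorem A5_c1_t19 : CovD 1 gA5 [(189837869056, 6013059072), (618475290624, 68719476736), (5497558138880, 5497558138880)] :=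
  covD_split 2 (by decide +kernel) A5_c1_t20 A5_c1_t21

theorem A5_c1_t22 : CovD 1 gA5 [(189837869056, 6013059072), (755914244096, 68719476736), (5497558138880, 5497558138880)] :=
  covD_split 1 (by decide +kernel) A5_c1_t23 A5_c1_t24

theorem A5_c1_t18 : CovD 1 gA5 [(189837869056, 6013059072), (687194767360, 137438953472), (5497558138880, 5497558138880)] :=
  covD_split 1 (by decide +kernel) A5_c1_t19 A5_c1_t22

theorem A5_c1_t26 : CovD 1 gA5 [(189837869056, 6013059072), (893353197568, 68719476736), (5497558138880, 5497558138880)] :=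
  covD_split 2 (by decide +kernel) A5_c1_t27 A5_c1_t28

theorem A5_c1_t29 : CovD 1 gA5 [(189837869056, 6013059072), (1030792151040, 68719476736), (5497558138880, 5497558138880)] :=
  covD_split 1 (by decide +kernel) A5_c1_t30 A5_c1_t31

theorem A5_c1_t25 : CovD 1 gA5 [(189837869056, 6013059072), (962072674304, 137438953472), (5497558138880, 5497558138880)] :=
  covD_split 1 (by decide +kernel) A5_c1_t26 A5_c1_t29

theorem A5_c1_t17 : CovD 1 gA5 [(189837869056, 6013059072), (824633720832, 274877906944), (5497558138880, 5497558138880)] :=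
  covD_split 1 (by decide +kernel) A5_c1_t18 A5_c1_t25

theorem A5_c1_t1 : CovD 1 gA5 [(183824809984, 12026118144), (824633720832, 274877906944), (5497558138880, 5497558138880)] :=
  covD_split 0 (by decide +kernel) A5_c1_t2 A5_c1_t17

theorem A5_c1_t35 : CovD 1 gA5 [(201863987200, 6013059072), (618475290624, 68719476736), (5497558138880, 5497558138880)] :=
  covD_split 1 (by decide +kernel) A5_c1_t36 A5_c1_t37

theorem A5_c1_t38 : CovD 1 gA5 [(201863987200, 6013059072), (755914244096, 68719476736), (5497558138880, 5497558138880)] :=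
  covD_split 1 (by decide +kernel) A5_c1_t39 A5_c1_t40

theorem A5_c1_t34 : CovD 1 gA5 [(201863987200, 6013059072), (687194767360, 137438953472), (5497558138880, 5497558138880)] :=
  covD_split 1 (by decide +kernel) A5_c1_t35 A5_c1_t38

theorem A5_c1_t42 : CovD 1 gA5 [(201863987200, 6013059072), (893353197568, 68719476736), (5497558138880, 5497558138880)] :=
  covD_split 1 (by decide +kernel) A5_c1_t43 A5_c1_t44

theorem A5_c1_t45 : CovD 1 gA5 [(201863987200, 6013059072), (1030792151040, 68719476736), (5497558138880, 5497558138880)] :=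
  covD_split 1 (by decide +kernel) A5_c1_t46 A5_c1_t47

theorem A5_c1_t41 : CovD 1 gA5 [(201863987200, 6013059072), (962072674304, 137438953472), (5497558138880, 5497558138880)] :=
  covD_split 1 (by decide +kernel) A5_c1_t42 A5_c1_t45

theorem A5_c1_t33 : CovD 1 gA5 [(201863987200, 6013059072), (824633720832, 274877906944), (5497558138880, 5497558138880)] :=
  covD_split 1 (by decide +kernel) A5_c1_t34 A5_c1_t41

theorem A5_c1_t50 : CovD 1 gA5 [(213890105344, 6013059072), (618475290624, 68719476736), (5497558138880, 5497558138880)] :=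
  covD_split 1 (by decide +kernel) A5_c1_t51 A5_c1_t52

theorem A5_c1_t53 : CovD 1 gA5 [(213890105344, 6013059072), (755914244096, 68719476736), (5497558138880, 5497558138880)] :=
  covD_split 1 (by decide +kernel) A5_c1_t54 A5_c1_t55

theorem A5_c1_t49 : CovD 1 gA5 [(213890105344, 6013059072), (687194767360, 137438953472), (5497558138880, 5497558138880)] :=
  covD_split 1 (by decide +kernel) A5_c1_t50 A5_c1_t53

theorem A5_c1_t57 : CovD 1 gA5 [(213890105344, 6013059072), (893353197568, 68719476736), (5497558138880, 5497558138880)] :=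
  covD_split 1 (by decide +kernel) A5_c1_t58 A5_c1_t59

theorem A5_c1_t60 : CovD 1 gA5 [(213890105344, 6013059072), (1030792151040, 68719476736), (5497558138880, 5497558138880)] :=
  covD_split 1 (by decide +kernel) A5_c1_t61 A5_c1_t62

theorem A5_c1_t56 : CovD 1 gA5 [(213890105344, 6013059072), (962072674304, 137438953472), (5497558138880, 5497558138880)] :=
  covD_split 1 (by decide +kernel) A5_c1_t57 A5_c1_t60

theorem A5_c1_t48 : CovD 1 gA5 [(213890105344, 6013059072), (824633720832, 274877906944), (5497558138880, 5497558138880)] :=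
  covD_split 1 (by decide +kernel) A5_c1_t49 A5_c1_t56

theorem A5_c1_t32 : CovD 1 gA5 [(207877046272, 12026118144), (824633720832, 274877906944), (5497558138880, 5497558138880)] :=
  covD_split 0 (by decide +kernel) A5_c1_t33 A5_c1_t48

theorem A5_c1 : CovD 1 gA5 [(195850928128, 24052236288), (824633720832, 274877906944), (5497558138880, 5497558138880)] :=
  covD_split 0 (by decide +kernel) A5_c1_t1 A5_c1_t32

theorem B5_c0_t2 : CovD 1 gB5 [(177811750912, 6013059072), (549755813888, 549755813888), (54975791104, 54975791104)] :=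
  covD_split 1 (by decide +kernel) B5_c0_t3 B5_c0_t4

theorem B5_c0_t5 : CovD 1 gB5 [(189837869056, 6013059072), (549755813888, 549755813888), (54975791104, 54975791104)] :=
  covD_split 1 (by decide +kernel) B5_c0_t6 B5_c0_t7

theorem B5_c0_t1 : CovD 1 gB5 [(183824809984, 12026118144), (549755813888, 549755813888), (54975791104, 54975791104)] :=
  covD_split 0 (by decide +kernel) B5_c0_t2 B5_c0_t5

theorem B5_c0_t9 : CovD 1 gB5 [(207877046272, 12026118144), (274877906944, 274877906944), (54975791104, 54975791104)] :=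
  covD_split 1 (by decide +kernel) B5_c0_t10 B5_c0_t11

theorem B5_c0_t13 : CovD 1 gB5 [(201863987200, 6013059072), (824633720832, 274877906944), (54975791104, 54975791104)] :=
  covD_split 1 (by decide +kernel) B5_c0_t14 B5_c0_t15

theorem B5_c0_t16 : CovD 1 gB5 [(213890105344, 6013059072), (824633720832, 274877906944), (54975791104, 54975791104)] :=
  covD_split 1 (by decide +kernel) B5_c0_t17 B5_c0_t18

theorem B5_c0_t12 : CovD 1 gB5 [(207877046272, 12026118144), (824633720832, 274877906944), (54975791104, 54975791104)] :=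
  covD_split 0 (by decide +kernel) B5_c0_t13 B5_c0_t16

theorem B5_c0_t8 : CovD 1 gB5 [(207877046272, 12026118144), (549755813888, 549755813888), (54975791104, 54975791104)] :=
  covD_split 1 (by decide +kernel) B5_c0_t9 B5_c0_t12

theorem B5_c0 : CovD 1 gB5 [(195850928128, 24052236288), (549755813888, 549755813888), (54975791104, 54975791104)] :=
  covD_split 0 (by decide +kernel) B5_c0_t1 B5_c0_t8

theorem D5_c0_t3 : CovD 1 gD5 [(195850928128, 24052236288), (68719476736, 68719476736), (863554764800, 863554764800)] :=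
  covD_split 0 (by decide +kernel) D5_c0_t4 D5_c0_t5

theorem D5_c0_t2 : CovD 1 gD5 [(195850928128, 24052236288), (137438953472, 137438953472), (863554764800, 863554764800)] :=
  covD_split 1 (by decide +kernel) D5_c0_t3 D5_c0_t6

theorem D5_c0_t1 : CovD 1 gD5 [(195850928128, 24052236288), (274877906944, 274877906944), (863554764800, 863554764800)] :=
  covD_split 1 (by decide +kernel) D5_c0_t2 D5_c0_t7

theorem D5_c0 : CovD 1 gD5 [(195850928128, 24052236288), (549755813888, 549755813888), (863554764800, 863554764800)] :=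
  covD_split 1 (by decide +kernel) D5_c0_t1 D5_c0_t8

theorem E5_c0_t2 : CovD 1 gE5 [(195850928128, 24052236288), (137438953472, 137438953472), (863554764800, 863554764800)] :=
  covD_split 1 (by decide +kernel) E5_c0_t3 E5_c0_t4

theorem E5_c0_t1 : CovD 1 gE5 [(195850928128, 24052236288), (274877906944, 274877906944), (863554764800, 863554764800)] :=
  covD_split 1 (by decide +kernel) E5_c0_t2 E5_c0_t5

theorem E5_c0_t6 : CovD 1 gE5 [(195850928128, 24052236288), (824633720832, 274877906944), (863554764800, 863554764800)] :=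
  covD_split 1 (by decide +kernel) E5_c0_t7 E5_c0_t8

theorem E5_c0 : CovD 1 gE5 [(195850928128, 24052236288), (549755813888, 549755813888), (863554764800, 863554764800)] :=
  covD_split 1 (by decide +kernel) E5_c0_t1 E5_c0_t6

end Pool.Agent.helper14.NR.E5d
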