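import Pool.Agent.helper63.NF.Cert

/-!
Generated: table E5d.
-/

namespace Pool.Agent.helper14.NR.E5d

open Pool.Agent.helper63.NF

def tab : TD where
  strip := false
  bm := some (18587007844352, -10701179453440, 2397987405824, 879609511936)
  ec := 195957882880
  bc := 1421634174976
  H := [[[76730385856, 9063606656, -521553344, 4665276928], [262019282496, -119960689792, -22424132288], [-446059934400, -251471921984], [6085316637632]], [[-11415711360, -9872200000, 612925376], [-69054014976, -23548892672], [-24554907904]], [[-2830857408, 1225067520], [-4627184576]], [[637504320]], [[-45598400]]]
  pol := none
  a := [[[229962285056, -242327289856, 71147913216, 1030977880064], [994286370816, 55924883456]], [[111225470976, 991232000, 4325376, -65536], [7196442624, 5624758272]], [[112514695168, 2005663744, 17367040, -196608], [14571667456, 11508056064]], [[107446927360, -1914634240, 16646144, -65536], [-13870170112, -10498801664]], [[108691718144, -968491008, 4194304, -65536], [-7021068288, -5372444672]], [[110087897088, -15374090240, -398327808, 63717572608], [85073985536, -79790014464]]]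
  j := [1511828488192, 1786706395136, 3573412790272, 5222680231936, 7009386627072, 8796093022208]
  c := [879662989312, 879662989312, 659814350848, 549755813888, 439697276928, 329907175424]
  M := [[[[1392777297920, 572694069248, 174591770624], [3569741594624, 5358094385152], [-1916197339136]], [[762839695360, -88601722880], [5218391621632]], [[-127819644928, -40411987968], [-7547209777152]], [[-388969201664]], [[319334907904]], [[-146451267584]]], [[[1348410408960, 412737536000, 21687238656], [3322446938112]], [[159384928256, 14362804224], [647472807936]], [[-11378229248]], [[500498432]]], [[[1366595796992, 437948252160, 35989225472], [3139059908608]], [[145611227136, 6494552064], [686746632192]], [[-8306622464]], [[258605056]]], [[[1468955033600, 663238475776, 153741361152], [-628560691200]], [[71078707200, -53606809600], [1742581202944]], [[9779871744]], [[-1548156928]]], [[[1621681373184, 795748139008, 254364549120], [-2600749105152]], [[-54886727680, -86555033600], [2274902147072]], [[45847150592]], [[-5247795200]]], [[[1804043550720, 987666055168, 354698854400], [-2715592949760]], [[-191680741376, -136127840256], [2275262791680]], [[82748375040]], [[-8958771200]]]]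
  l0 := [[[3579298446784, -605859380608, -88369200000], [444928668480, -758832994496], [13995145539264]], [[-853310530048, 303076233088, -16597056320], [-17124900456768, -5130845090304], [-92044724698496]], [[-405963549888, -183148272768, -78843121472], [3182504794176, 3195426582912], [87520052240960]], [[561868025472, -275661048576], [-9550103224448]], [[-1668232970752, 509615646720], [14916517646528]], [[2490923180416, -383608720768], [-5195921560960]], [[-2441707638784]], [[1564690281984]], [[-713135361472]], [[56454028928]]]
  q0 := [[982754953216, 657443656000, -160216982592, 7288439168], [4372837945920, 993229691584, -1099076303744], [-8807790548864, -6619275960576], [-5020948620736]]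
  t := [[[2500933386240, 895693160448, -348752838656, 492697223168], [8697885949952, 6658848653312]], [[2330398097408, 2114529263616, 376953896960, -853419687936], [14188938461184, 15864752701440]], [[2261935128576, 1836649086976, -171298783232, -560961224704], [12436528758784, 13235832356864]], [[2060133728256, 1587292405760, -466318327808, -822627663872], [10437286887424, 10590363320320]], [[2012497313792, 1686716284928, -28912320512, -258948268032], [15066190118912, 21212493381632]], [[2372672487424, 2393621987328, 810914480128, 727366238208], [27052769738752, 45204935540736]]]
  y := [37172941946880, 18221398753280, 8228083597312, 3493955895296, 1023275958272, -424128020480]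
  sc := [0, 0, 0, 0, 3, 5]
  L := [(0, 2), (0, 3), (1, 1), (1, 2), (2, 0), (2, 1), (3, 0)]
  Lt := [(0, 2), (0, 3), (1, 1)]
  far := 1
  x2 := 10775213113344
  B1 := 659706347520
  C2 := 1327712154624
  f1 := 769658138624
  f2 := 0
  f3 := 0
  is1 := 8796093022208
  s1 := 137438953472

end Pool.Agent.helper14.NR.E5d
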